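import Pool.Agent.Lib_MP_debdb1.Pauli

/-!
# MP_debdb1_mp, piece [Bdry]: the edges between `B` and its complement

Let `x := mixW (ind B) = ∑_{j ∈ B} X_j`, `δ M := x * M - M * x` (a derivation, `ℝ`-linear; keep it as
a linear map), `b j := ind B j ∈ {0,1}`, `Y_j := pauliX j * pauliZ j`. By the Pauli relations
`δ (Z_j) = 2 b_j Y_j`, `δ (Y_j) = 2 b_j Z_j`
(only the summand `X_j` of `x` does not commute with `Z_j`, `Y_j`). By the Leibniz rule, for `j ≠ k`
(the factors of different qubits commute, but Leibniz does not need it)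
`δ (Z_j Z_k) = 2 b_j Y_j Z_k + 2 b_k Z_j Y_k`, and
* if exactly one of `j, k` is in `B`: `δ² (Z_j Z_k) = 4 Z_j Z_k`;
* if none: `δ (Z_j Z_k) = 0`;
* if both: `δ² (Z_j Z_k) = 8 (Z_j Z_k + Y_j Y_k)` and `δ² (Y_j Y_k) = 8 (Z_j Z_k + Y_j Y_k)`.
Put `L := (1/4) δ²`. Then `(4 L - L²)/3` is `1` on `Z_j Z_k` when exactly one of `j, k` is in `B` and
`0` otherwise. By `costH_eq_sum` (for `H` and for `bdry H B`), `(4 L - L²)/3 (costH H) =
costH (bdry H B)`.
Finally `ad (I • x)² (I • M) = - I • δ² M`, so `L (I • M) = -(1/4) ad(I • x)² (I • M)` stays in `g`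
when `I • x ∈ g` and `I • M ∈ g`.
-/

namespace Pool.Agent.DlaMaxCut

open Matrix

universe u

variable {V : Type u} [Fintype V] [DecidableEq V]

/-- the derivation `M ↦ x M - M x` -/
noncomputable def bdryDel (x : Matrix (V → Bool) (V → Bool) ℂ) :
    Matrix (V → Bool) (V → Bool) ℂ →ₗ[ℝ] Matrix (V → Bool) (V → Bool) ℂ :=
  LinearMap.mulLeft ℝ x - LinearMap.mulRight ℝ x

theorem bdryDel_apply (x M : Matrix (V → Bool) (V → Bool) ℂ) : bdryDel x M = x * M - M * x := rfl

theorem bdryDel_mul (x M N : Matrix (V → Bool) (V → Bool) ℂ) :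
    bdryDel x (M * N) = bdryDel x M * N + M * bdryDel x N := by
  simp only [bdryDel_apply]
  noncomm_ring

theorem bdryDel_Z (u : V → ℝ) (j : V) :
    bdryDel (mixW u) (pauliZ j) = (2 * u j) • (pauliX j * pauliZ j) := by
  rw [bdryDel_apply, mixW, Finset.sum_mul, Finset.mul_sum, ← Finset.sum_sub_distrib]
  rw [Finset.sum_eq_single j]
  · rw [smul_mul_assoc, mul_smul_comm, ← smul_sub]
    have h : pauliX j * pauliZ j - pauliZ j * pauliX j = (2 : ℝ) • (pauliX j * pauliZ j) := by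
      rw [pauliX_pauliZ_same, two_smul]
      abel
    rw [h, smul_smul, mul_comm]
  · intro k _ hk
    rw [smul_mul_assoc, mul_smul_comm, pauliX_pauliZ_ne hk, sub_self]
  · intro h
    exact absurd (Finset.mem_univ j) h

theorem bdryDel_Y (u : V → ℝ) (j : V) :
    bdryDel (mixW u) (pauliX j * pauliZ j) = (2 * u j) • pauliZ j := by
  rw [bdryDel_apply, mixW, Finset.sum_mul, Finset.mul_sum, ← Finset.sum_sub_distrib]
  rw [Finset.sum_eq_single j]
  · rw [smul_mul_assoc, mul_smul_comm, ← smul_sub]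
    have h : pauliX j * (pauliX j * pauliZ j) - pauliX j * pauliZ j * pauliX j = (2 : ℝ) • pauliZ j := by
      have h1 : pauliZ j * pauliX j = -(pauliX j * pauliZ j) := by
        rw [pauliX_pauliZ_same, neg_neg]
      rw [mul_assoc (pauliX j) (pauliZ j) (pauliX j), h1, mul_neg, ← mul_assoc, pauliX_mul_self, one_mul, two_smul]
      abel
    rw [h, smul_smul, mul_comm]
  · intro k _ hk
    rw [smul_mul_assoc, mul_smul_comm, ← mul_assoc, pauliX_comm k j, mul_assoc, pauliX_pauliZ_ne hk, ← mul_assoc, sub_self]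
  · intro h
    exact absurd (Finset.mem_univ j) h

theorem bdryDel_sq_ZZ (u : V → ℝ) (j k : V) :
    bdryDel (mixW u) (bdryDel (mixW u) (pauliZ j * pauliZ k)) =
      (4 * (u j ^ 2 + u k ^ 2)) • (pauliZ j * pauliZ k) +
        (8 * u j * u k) • ((pauliX j * pauliZ j) * (pauliX k * pauliZ k)) := by
  have h1 := bdryDel_Z u j
  have h2 := bdryDel_Z u k
  have h3 := bdryDel_Y u j
  have h4 := bdryDel_Y u k
  generalize pauliX j * pauliZ j = yj at *
  generalize pauliX k * pauliZ k = yk at *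
  rw [bdryDel_mul, h1, h2, smul_mul_assoc, mul_smul_comm, map_add, map_smul, map_smul, bdryDel_mul, bdryDel_mul,
    h1, h2, h3, h4]
  simp only [smul_mul_assoc, mul_smul_comm]
  module

theorem bdryDel_sq_YY (u : V → ℝ) (j k : V) :
    bdryDel (mixW u) (bdryDel (mixW u) ((pauliX j * pauliZ j) * (pauliX k * pauliZ k))) =
      (4 * (u j ^ 2 + u k ^ 2)) • ((pauliX j * pauliZ j) * (pauliX k * pauliZ k)) +
        (8 * u j * u k) • (pauliZ j * pauliZ k) := by
  have h1 := bdryDel_Z u j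
  have h2 := bdryDel_Z u k
  have h3 := bdryDel_Y u j
  have h4 := bdryDel_Y u k
  generalize pauliX j * pauliZ j = yj at *
  generalize pauliX k * pauliZ k = yk at *
  rw [bdryDel_mul, h3, h4, smul_mul_assoc, mul_smul_comm, map_add, map_smul, map_smul, bdryDel_mul, bdryDel_mul,
    h1, h2, h3, h4]
  simp only [smul_mul_assoc, mul_smul_comm]
  module

/-- `4 L - L²`, `L = (1/4) δ²`, divided by `3` -/
noncomputable def bdryPhi (x : Matrix (V → Bool) (V → Bool) ℂ) :
    Matrix (V → Bool) (V → Bool) ℂ →ₗ[ℝ] Matrix (V → Bool) (V → Bool) ℂ :=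
  (1 / 3 : ℝ) • ((bdryDel x) ∘ₗ (bdryDel x)) - (1 / 48 : ℝ) • ((bdryDel x) ∘ₗ (bdryDel x) ∘ₗ (bdryDel x) ∘ₗ (bdryDel x))

theorem bdryPhi_apply (x M : Matrix (V → Bool) (V → Bool) ℂ) : bdryPhi x M =
    (1 / 3 : ℝ) • bdryDel x (bdryDel x M) - (1 / 48 : ℝ) • bdryDel x (bdryDel x (bdryDel x (bdryDel x M))) := rfl

open Classical in
theorem bdryPhi_ZZ (B : Set V) (j k : V) :
    bdryPhi (mixW (ind B)) (pauliZ j * pauliZ k) = if ¬ (j ∈ B ↔ k ∈ B) then pauliZ j * pauliZ k else 0 := by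
  rw [bdryPhi_apply, bdryDel_sq_ZZ]
  simp only [map_add, map_smul, bdryDel_sq_ZZ, bdryDel_sq_YY]
  by_cases hj : j ∈ B <;> by_cases hk : k ∈ B
  · simp only [ind, hj, hk, if_true, not_true, if_false]
    module
  · simp only [ind, hj, hk, if_true, if_false, iff_false, not_true, not_false_eq_true]
    module
  · simp only [ind, hj, hk, if_true, if_false, iff_true, not_false_eq_true]
    module
  · simp only [ind, hj, hk, if_false, not_true]
    module

theorem bdryPhi_costH (H : SimpleGraph V) (B : Set V) :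
    bdryPhi (mixW (ind B)) (costH H) = costH (bdry H B) := by
  classical
  rw [costH_eq_sum H, costH_eq_sum (bdry H B), map_smul]
  congr 1
  rw [map_sum]
  refine Finset.sum_congr rfl fun j _ => ?_
  rw [map_sum]
  refine Finset.sum_congr rfl fun k _ => ?_
  by_cases h : H.Adj j k
  · rw [if_pos h, bdryPhi_ZZ]
    by_cases h2 : (j ∈ B ↔ k ∈ B)
    · rw [if_neg (not_not.2 h2), if_neg]
      rw [bdry_adj]
      exact fun h3 => h3.2 h2
    · rw [if_pos h2, if_pos]
      rw [bdry_adj]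
      exact ⟨h, h2⟩
  · rw [if_neg h, if_neg, map_zero]
    rw [bdry_adj]
    exact fun h3 => h h3.1

theorem bdry_sq_mem (g : Submodule ℝ (Matrix (V → Bool) (V → Bool) ℂ))
    (hg : ∀ M ∈ g, ∀ N ∈ g, M * N - N * M ∈ g) (x : Matrix (V → Bool) (V → Bool) ℂ)
    (hx : Complex.I • x ∈ g) (M : Matrix (V → Bool) (V → Bool) ℂ) (hM : Complex.I • M ∈ g) :
    Complex.I • bdryDel x (bdryDel x M) ∈ g := by
  have h1 := hg _ hx _ (hg _ hx _ hM)
  have h2 : (Complex.I • x) * ((Complex.I • x) * (Complex.I • M) - (Complex.I • M) * (Complex.I • x)) -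
      ((Complex.I • x) * (Complex.I • M) - (Complex.I • M) * (Complex.I • x)) * (Complex.I • x) =
      -(Complex.I • bdryDel x (bdryDel x M)) := by
    simp only [bdryDel_apply, smul_mul_assoc, mul_smul_comm, mul_sub, sub_mul, smul_sub, ← mul_assoc]
    have hI : ∀ N : Matrix (V → Bool) (V → Bool) ℂ, Complex.I • Complex.I • N = -N := fun N => by
      rw [smul_smul, Complex.I_mul_I, neg_one_smul]
    simp only [hI, smul_neg]
    abel
  rw [h2] at h1
  exact (Submodule.neg_mem_iff g).1 h1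

theorem bdry_mem (H : SimpleGraph V) (g : Submodule ℝ (Matrix (V → Bool) (V → Bool) ℂ))
    (hg : ∀ M ∈ g, ∀ N ∈ g, M * N - N * M ∈ g) (hH : Complex.I • costH H ∈ g)
    (B : Set V) (hB : Complex.I • mixW (ind B) ∈ g) :
    Complex.I • costH (bdry H B) ∈ g := by
  rw [← bdryPhi_costH, bdryPhi_apply]
  have h1 := bdry_sq_mem g hg _ hB _ hH
  have h2 := bdry_sq_mem g hg _ hB _ h1
  rw [smul_sub, smul_comm Complex.I, smul_comm Complex.I]
  exact g.sub_mem (g.smul_mem _ h1) (g.smul_mem _ h2)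

end Pool.Agent.DlaMaxCut
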