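import Pool.Agent.Lib_MP_debdb1.Pauli

/-!
# MP_debdb1_mp, piece [Crit]: `i X_v ∈ g` implies `dim g^v < dim g`

Proof. Let `g = fullDLA G`, `g' = dla (costH G) (mixH V - pauliX v)`.

1. `g' ≤ g` by `dla_le`: `I • costH G ∈ g` (`dla_left`), `I • (mixH V - pauliX v) ∈ g` (difference of
   `dla_right` and the hypothesis), `g` is closed under commutators (`dla_comm`).
2. Every `M ∈ g'` satisfies `M * pauliZ v = pauliZ v * M`: apply `dla_le` to the submodule
   `{M | M * pauliZ v = pauliZ v * M}` (the generators commute with `pauliZ v`:
   `costH G` is diagonal, and `pauliX j` commutes with `pauliZ v` for `j ≠ v`).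
3. `I • pauliX v ∉ g'`: otherwise `pauliX v` commutes with `pauliZ v`; with `pauliX_pauliZ_same` this
   gives `2 • (pauliZ v * pauliX v) = 0`, but the entry at `(x, flipAt v x)` is `± 1`.
   So `g' < g` and `finrank g' < finrank g` (`Submodule.finrank_lt_finrank_of_lt`; matrices over `ℂ`
   are finite dimensional over `ℝ`).
4. Let `ext y : V → Bool` be the extension of `y : {w // w ≠ v} → Bool` by `false` at `v`, and
   `cmp M := M.submatrix ext ext` (an `ℝ`-linear map). If `N` commutes with `pauliZ v` then
   `N x z = 0` whenever `x v ≠ z v`; hence `cmp (M * N) = cmp M * cmp N` for such `N`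
   (the sum over `z : V → Bool` reduces to the `z` with `z v = false`, i.e. `z = ext y`).
   `cmp (costH G) = costRed G v` (edges not containing `v` give the first term, edges `{v,w}` the
   second one; use `costH_eq_sum` or `costH_eq_diagonal`), `cmp (mixH V - pauliX v) = mixH _`.
5. So the submodule `S := Submodule.map cmp g'` contains `I • costRed G v` and `I • mixH _` and is
   closed under commutators: for `M = cmp M'`, `N = cmp N'`, both `M'`, `N'` in `g'` commute with
   `pauliZ v`, hence `M * N - N * M = cmp (M' * N' - N' * M')`. By `dla_le`, `redDLA G v ≤ S`, and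
   `finrank (redDLA G v) ≤ finrank S ≤ finrank g'` (`Submodule.finrank_mono`,
   `Submodule.finrank_map_le`).
-/

namespace Pool.Agent.DlaMaxCut

open Matrix

universe u

variable {V : Type u} [Fintype V] [DecidableEq V]

theorem red_lt_full (G : SimpleGraph V) (v : V) (h : Complex.I • pauliX v ∈ fullDLA G) :
    Module.finrank ℝ (redDLA G v) < Module.finrank ℝ (fullDLA G) := by
  sorry

end Pool.Agent.DlaMaxCut
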