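import Pool.Agent.Lib_MP_debdb1.OddPart
import Pool.Agent.Lib_MP_debdb1.Bdry
import Pool.Agent.Lib_MP_debdb1.Crit

/-!
# MP_debdb1_mp, piece [Assembly]: a mod 2 equitable partition whose class sums are in `g`

Proof of `exists_mod2`. Let `g = fullDLA G`, `U = {u : V → ℝ | I • mixW u ∈ g}` (a submodule),
`A = {f : V → ℝ | ∀ u ∈ U, f * u ∈ U}` (closed under products, sums, scalars, contains `1`).
* `1 ∈ U` because `mixW 1 = mixH V`, hence `A ⊆ U`.
* `oddDeg G ∈ A` by `odd_mem`; if `ind B ∈ U` then `oddDeg (bdry G B) ∈ A` by `bdry_mem` + `odd_mem`.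
* Let `r j k :↔ ∀ f ∈ A, f j = f k`. Claim: `ind {w | r l w} ∈ A` for every `l`. For every `k` with
  `¬ r l k` choose `f_k ∈ A` with `f_k l ≠ f_k k` and take the product over these `k` of
  `(f_k - f_k k) / (f_k l - f_k k)`: it is `1` on the class of `l` (the value of `f_k` at `w` is
  `f_k l` when `r l w`) and `0` at `k` when `¬ r l k`.
* So for every `l` the function `oddDeg (bdry G [l])` is in `A`, hence constant on classes, as is
  `oddDeg G`. Let `r j k`. If `¬ r l j` (then `¬ r l k`) the neighbours of `j` in `bdry G [l]` are the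
  neighbours of `j` in `[l]`, the same for `k`: done. If `r l j` (then `r l k`) the neighbours of `j`
  in `bdry G [l]` are the neighbours of `j` outside `[l]`; the number of the neighbours of `j` in
  `[l]` is the degree minus this number; the parities of both agree for `j` and `k`.
-/

namespace Pool.Agent.DlaMaxCut

open Matrix

universe u

variable {V : Type u} [Fintype V] [DecidableEq V]

theorem asm_ind_pos {S : Set V} {j : V} (h : j ∈ S) : ind S j = 1 := by
  unfold ind
  exact if_pos h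

theorem asm_ind_neg {S : Set V} {j : V} (h : j ∉ S) : ind S j = 0 := by
  unfold ind
  exact if_neg h

theorem asm_mixW_add (u v : V → ℝ) : mixW (u + v) = mixW u + mixW v := by
  unfold mixW
  rw [← Finset.sum_add_distrib]
  refine Finset.sum_congr rfl fun j _ => ?_
  rw [Pi.add_apply, add_smul]

theorem asm_mixW_smul (c : ℝ) (u : V → ℝ) : mixW (c • u) = c • mixW u := by
  unfold mixW
  rw [Finset.smul_sum]
  refine Finset.sum_congr rfl fun j _ => ?_
  rw [Pi.smul_apply, smul_eq_mul, mul_smul]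

theorem asm_mixW_one : mixW (1 : V → ℝ) = mixH V := by
  unfold mixW mixH
  refine Finset.sum_congr rfl fun j _ => ?_
  rw [Pi.one_apply, one_smul]

/-- The functions which multiply `{u | I • mixW u ∈ g}` into itself. -/
noncomputable def asmAlg (g : Submodule ℝ (Matrix (V → Bool) (V → Bool) ℂ)) :
    Subalgebra ℝ (V → ℝ) where
  carrier := {f | ∀ u : V → ℝ, Complex.I • mixW u ∈ g → Complex.I • mixW (f * u) ∈ g}
  mul_mem' := by
    intro a b ha hb u hu
    rw [mul_assoc]
    exact ha _ (hb _ hu)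
  add_mem' := by
    intro a b ha hb u hu
    rw [add_mul, asm_mixW_add, smul_add]
    exact g.add_mem (ha _ hu) (hb _ hu)
  algebraMap_mem' := by
    intro c u hu
    have h : (algebraMap ℝ (V → ℝ) c) * u = c • u := by
      rw [Algebra.smul_def]
    rw [h, asm_mixW_smul, smul_comm]
    exact g.smul_mem c hu

theorem asmAlg_mem {g : Submodule ℝ (Matrix (V → Bool) (V → Bool) ℂ)} {f : V → ℝ} :
    f ∈ asmAlg g ↔ ∀ u : V → ℝ, Complex.I • mixW u ∈ g → Complex.I • mixW (f * u) ∈ g := Iff.rfl

/-- Not separated by the functions in `A`. -/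
def asmRel (A : Subalgebra ℝ (V → ℝ)) : Setoid V where
  r j k := ∀ f ∈ A, f j = f k
  iseqv := ⟨fun _ _ _ => rfl, fun h f hf => (h f hf).symm, fun h h' f hf => (h f hf).trans (h' f hf)⟩

theorem asmRel_iff (A : Subalgebra ℝ (V → ℝ)) (j k : V) :
    asmRel A j k ↔ ∀ f ∈ A, f j = f k := Iff.rfl

theorem asm_ind_mem (A : Subalgebra ℝ (V → ℝ)) (l : V) : ind {w : V | asmRel A l w} ∈ A := by
  classical
  have hsep : ∀ k : V, ¬ asmRel A l k → ∃ f ∈ A, f l ≠ f k := by
    intro k hk
    by_contra hcon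
    apply hk
    rw [asmRel_iff]
    intro f hf
    by_contra hne
    exact hcon ⟨f, hf, hne⟩
  choose! F hFA hF using hsep
  have hprod : (∏ k ∈ Finset.univ.filter (fun k => ¬ asmRel A l k),
      ((F k l - F k k)⁻¹ • (F k - algebraMap ℝ (V → ℝ) (F k k)))) ∈ A := by
    refine Subalgebra.prod_mem _ fun k hk => ?_
    rw [Finset.mem_filter] at hk
    exact A.smul_mem (A.sub_mem (hFA k hk.2) (A.algebraMap_mem _)) _
  have heq : ind {w : V | asmRel A l w} = ∏ k ∈ Finset.univ.filter (fun k => ¬ asmRel A l k),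
      ((F k l - F k k)⁻¹ • (F k - algebraMap ℝ (V → ℝ) (F k k))) := by
    funext w
    rw [Finset.prod_apply]
    by_cases hw : asmRel A l w
    · rw [asm_ind_pos (S := {w : V | asmRel A l w}) hw, Finset.prod_eq_one]
      intro k hk
      rw [Finset.mem_filter] at hk
      have h1 : F k w = F k l := (hw (F k) (hFA k hk.2)).symm
      have h2 : F k l - F k k ≠ 0 := sub_ne_zero.mpr (hF k hk.2)
      rw [Pi.smul_apply, Pi.sub_apply, Pi.algebraMap_apply, h1, smul_eq_mul]
      exact inv_mul_cancel₀ h2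
    · rw [asm_ind_neg (S := {w : V | asmRel A l w}) hw, eq_comm]
      refine Finset.prod_eq_zero (i := w) (by rw [Finset.mem_filter]; exact ⟨Finset.mem_univ _, hw⟩) ?_
      rw [Pi.smul_apply, Pi.sub_apply, Pi.algebraMap_apply]
      simp
  rw [heq]
  exact hprod

theorem asm_oddDeg_congr {H : SimpleGraph V} {j k : V} (h : oddDeg H j = oddDeg H k) :
    (Odd {w : V | H.Adj j w}.ncard ↔ Odd {w : V | H.Adj k w}.ncard) := by
  classical
  unfold oddDeg at h
  by_cases h1 : Odd {w : V | H.Adj j w}.ncard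
  · by_cases h2 : Odd {w : V | H.Adj k w}.ncard
    · exact ⟨fun _ => h2, fun _ => h1⟩
    · rw [if_pos h1, if_neg h2] at h
      exact absurd h one_ne_zero
  · by_cases h2 : Odd {w : V | H.Adj k w}.ncard
    · rw [if_neg h1, if_pos h2] at h
      exact absurd h.symm one_ne_zero
    · exact ⟨fun h' => absurd h' h1, fun h' => absurd h' h2⟩

/-- Degree = neighbours in `B` + neighbours outside `B`. -/
theorem asm_split (G : SimpleGraph V) (B : Set V) (j : V) :
    {w : V | G.Adj j w}.ncard = {w : V | G.Adj j w ∧ w ∈ B}.ncard +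
      {w : V | G.Adj j w ∧ w ∉ B}.ncard := by
  rw [← Set.ncard_union_eq _ (Set.toFinite _) (Set.toFinite _)]
  · congr 1
    ext w
    simp only [Set.mem_ofPred_eq, Set.mem_union]
    tauto
  · rw [Set.disjoint_left]
    rintro w ⟨_, h1⟩ ⟨_, h2⟩
    exact h2 h1

theorem exists_mod2 (G : SimpleGraph V) : ∃ r : Setoid V, Mod2Equitable G r ∧
    ∀ l : V, Complex.I • mixW (ind {w : V | r l w}) ∈ fullDLA G := by
  classical
  have hcl : ∀ M ∈ fullDLA G, ∀ N ∈ fullDLA G, M * N - N * M ∈ fullDLA G :=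
    fun M hM N hN => dla_comm _ _ hM hN
  have hC : Complex.I • costH G ∈ fullDLA G := dla_left _ _
  have hX : Complex.I • mixW (1 : V → ℝ) ∈ fullDLA G := by
    rw [asm_mixW_one]
    exact dla_right _ _
  have hAU : ∀ f ∈ asmAlg (fullDLA G), Complex.I • mixW f ∈ fullDLA G := by
    intro f hf
    have := hf 1 hX
    rwa [mul_one] at this
  have hodd : ∀ H : SimpleGraph V, Complex.I • costH H ∈ fullDLA G →
      oddDeg H ∈ asmAlg (fullDLA G) := by
    intro H hH
    rw [asmAlg_mem]
    intro u hu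
    exact odd_mem H (fullDLA G) hcl hH u hu
  have hcls : ∀ l : V, Complex.I • mixW (ind {w : V | asmRel (asmAlg (fullDLA G)) l w}) ∈
      fullDLA G := fun l => hAU _ (asm_ind_mem _ l)
  refine ⟨asmRel (asmAlg (fullDLA G)), ?_, hcls⟩
  intro j k l hjk
  have h1 : Odd {w : V | G.Adj j w}.ncard ↔ Odd {w : V | G.Adj k w}.ncard :=
    asm_oddDeg_congr (hjk _ (hodd G hC))
  have h2 : Odd {w : V | (bdry G {w : V | asmRel (asmAlg (fullDLA G)) l w}).Adj j w}.ncard ↔
      Odd {w : V | (bdry G {w : V | asmRel (asmAlg (fullDLA G)) l w}).Adj k w}.ncard :=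
    asm_oddDeg_congr (hjk _ (hodd _ (bdry_mem G (fullDLA G) hcl hC _ (hcls l))))
  set B : Set V := {w : V | asmRel (asmAlg (fullDLA G)) l w} with hB
  have hgoal : ∀ i : V, {w : V | G.Adj i w ∧ asmRel (asmAlg (fullDLA G)) l w} =
      {w : V | G.Adj i w ∧ w ∈ B} := fun i => rfl
  rw [hgoal j, hgoal k]
  by_cases hl : asmRel (asmAlg (fullDLA G)) l j
  · have hjB : j ∈ B := hl
    have hkB : k ∈ B := Setoid.trans' _ hl hjk
    have e : ∀ i : V, i ∈ B → {w : V | (bdry G B).Adj i w} = {w : V | G.Adj i w ∧ w ∉ B} := by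
      intro i hi
      ext w
      rw [Set.mem_ofPred_eq, Set.mem_ofPred_eq, bdry_adj]
      constructor
      · rintro ⟨ha, hb⟩
        exact ⟨ha, fun hw => hb ⟨fun _ => hw, fun _ => hi⟩⟩
      · rintro ⟨ha, hb⟩
        exact ⟨ha, fun hw => hb (hw.1 hi)⟩
    rw [e j hjB, e k hkB] at h2
    rw [asm_split G B j, asm_split G B k, Nat.odd_add, Nat.odd_add, ← Nat.not_odd_iff_even,
      ← Nat.not_odd_iff_even, h2] at h1
    tauto
  · have hjB : j ∉ B := hl
    have hkB : k ∉ B := fun h => hl (Setoid.trans' _ h (Setoid.symm' _ hjk))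
    have e : ∀ i : V, i ∉ B → {w : V | (bdry G B).Adj i w} = {w : V | G.Adj i w ∧ w ∈ B} := by
      intro i hi
      ext w
      rw [Set.mem_ofPred_eq, Set.mem_ofPred_eq, bdry_adj]
      constructor
      · rintro ⟨ha, hb⟩
        refine ⟨ha, ?_⟩
        by_contra hw
        exact hb ⟨fun h => absurd h hi, fun h => absurd h hw⟩
      · rintro ⟨ha, hb⟩
        exact ⟨ha, fun hw => hi (hw.2 hb)⟩
    rw [e j hjB, e k hkB] at h2
    exact h2

/-- If the class of `v` is `{v}` in every mod 2 equitable partition, then freezing `v` lowers the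
dimension. -/
theorem main_of_singleton (G : SimpleGraph V) (r : Setoid V) (v : V) (hv : ∀ w, r v w → w = v)
    (hr : ∀ l : V, Complex.I • mixW (ind {w : V | r l w}) ∈ fullDLA G) :
    Module.finrank ℝ (redDLA G v) < Module.finrank ℝ (fullDLA G) := by
  classical
  apply red_lt_full
  have h := hr v
  have e : mixW (ind {w : V | r v w}) = pauliX v := by
    unfold mixW
    rw [Finset.sum_eq_single v]
    · rw [asm_ind_pos (S := {w : V | r v w}) (Setoid.refl' r v), one_smul]
    · intro j _ hj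
      rw [asm_ind_neg (S := {w : V | r v w}) (fun h' => hj (hv j h')), zero_smul]
    · intro h'
      exact absurd (Finset.mem_univ v) h'
  rwa [e] at h

theorem main_vertex (G : SimpleGraph V) (v : V)
    (h : ∀ r : Setoid V, Mod2Equitable G r → ∀ w, r v w → w = v) :
    Module.finrank ℝ (redDLA G v) < Module.finrank ℝ (fullDLA G) := by
  obtain ⟨r, hr, hr'⟩ := exists_mod2 G
  exact main_of_singleton G r v (h r hr) hr'

theorem main_exists (G : SimpleGraph V)
    (h : ∀ r : Setoid V, Mod2Equitable G r → ∃ v, ∀ w, r v w → w = v) :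
    ∃ v : V, Module.finrank ℝ (redDLA G v) < Module.finrank ℝ (fullDLA G) := by
  obtain ⟨r, hr, hr'⟩ := exists_mod2 G
  obtain ⟨v, hv⟩ := h r hr
  exact ⟨v, main_of_singleton G r v hv hr'⟩

end Pool.Agent.DlaMaxCut
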