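import Pool.Agent.Lib_MP_debdb1.Defs

/-!
# MP_debdb1_mp, piece [Branch]: the branches of a forest

`Br G u x` is the set of the vertices that can be reached from `x` by a walk which avoids `u`.
In a forest (`G.IsAcyclic`), with `G.Adj u x`, it is the part of the component of `x` behind `x`
seen from `u`.

Hints. Every walk can be shortened to a path with smaller support (`SimpleGraph.Walk.bypass`,
`SimpleGraph.Walk.support_bypass_subset`, `SimpleGraph.Walk.bypass_isPath`). In an acyclic graph two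
paths with the same ends are equal: `SimpleGraph.IsAcyclic.path_unique`.
* `Br_adj_root`: `z ∈ Br G u x`, path `p : x ⟶ z` avoiding `u`; `cons (u ~ x) p` is a path
  `u ⟶ z`, and `u ~ z` is another path; they are equal, so `p` has length `0`.
* `Br_disjoint`: if `z ∈ Br G x y ∩ Br G x y'` there are two paths `x ~ y ⟶ z` and `x ~ y' ⟶ z`
  (both avoid `x` after the first vertex); they are equal, so `y = y'`.
* `Br_subset`: `z ∈ Br G x y` by a path `p : y ⟶ z` avoiding `x`. It also avoids `u`: otherwise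
  `u ∈ Br G x y` and, with `y' = u`, `u ∈ Br G x u`, so `y = u` by `Br_disjoint`. Prepend `x ~ y`.
* `Br_decomp`: a path from `x` to `z ≠ x` avoiding `u` starts with an edge `x ~ y`, `y ≠ u`, and its
  tail avoids `x`.
* `Br_no_edge`: if `z ∈ Br G x y`, `z' ∈ Br G x y'` are adjacent then `z' ∈ Br G x y` (`Br_closed`).
-/

namespace Pool.Agent.DlaMaxCut.Forest

universe u

variable {V : Type u}

/-- The vertices that can be reached from `x` by a walk avoiding `u`. -/
def Br (G : SimpleGraph V) (u x : V) : Set V := {z | ∃ p : G.Walk x z, u ∉ p.support}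

theorem Branch_path {G : SimpleGraph V} {u x z : V} (h : z ∈ Br G u x) :
    ∃ p : G.Walk x z, p.IsPath ∧ u ∉ p.support := by
  classical
  obtain ⟨p, hp⟩ := h
  exact ⟨p.bypass, p.bypass_isPath, fun hu => hp (p.support_bypass_subset_support hu)⟩

theorem Branch_unique {G : SimpleGraph V} (hG : G.IsAcyclic) {v w : V} {p q : G.Walk v w}
    (hp : p.IsPath) (hq : q.IsPath) : p = q :=
  congrArg Subtype.val (hG.path_unique ⟨p, hp⟩ ⟨q, hq⟩)

theorem mem_Br_self (G : SimpleGraph V) {u x : V} (h : u ≠ x) : x ∈ Br G u x := by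
  refine ⟨SimpleGraph.Walk.nil, ?_⟩
  simpa using h

theorem not_mem_Br (G : SimpleGraph V) (u x : V) : u ∉ Br G u x := by
  rintro ⟨p, hp⟩
  exact hp p.end_mem_support

theorem Br_closed {G : SimpleGraph V} {u x z y : V} (hz : z ∈ Br G u x) (h : G.Adj z y)
    (hy : y ≠ u) : y ∈ Br G u x := by
  obtain ⟨p, hp⟩ := hz
  refine ⟨p.concat h, ?_⟩
  rw [SimpleGraph.Walk.support_concat]
  simp only [List.concat_eq_append, List.mem_append, List.mem_singleton, not_or]
  exact ⟨hp, fun e => hy e.symm⟩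

theorem Br_adj_root {G : SimpleGraph V} (hG : G.IsAcyclic) {u x z : V} (hux : G.Adj u x)
    (hz : z ∈ Br G u x) (hzu : G.Adj z u) : z = x := by
  obtain ⟨p, hp, hu⟩ := Branch_path hz
  have h1 : (SimpleGraph.Walk.cons hux p).IsPath := by
    rw [SimpleGraph.Walk.cons_isPath_iff]
    exact ⟨hp, hu⟩
  have h2 : (SimpleGraph.Walk.cons hzu.symm SimpleGraph.Walk.nil).IsPath := by
    rw [SimpleGraph.Walk.cons_isPath_iff]
    refine ⟨SimpleGraph.Walk.IsPath.nil, ?_⟩
    simpa using hzu.ne.symm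
  have h3 := congrArg SimpleGraph.Walk.length (Branch_unique hG h1 h2)
  simp only [SimpleGraph.Walk.length_cons, SimpleGraph.Walk.length_nil] at h3
  have h4 : p.length = 0 := by omega
  exact (SimpleGraph.Walk.eq_of_length_eq_zero h4).symm

theorem Br_disjoint {G : SimpleGraph V} (hG : G.IsAcyclic) {x y y' : V} (hy : G.Adj x y)
    (hy' : G.Adj x y') (hne : y ≠ y') : Disjoint (Br G x y) (Br G x y') := by
  rw [Set.disjoint_left]
  intro z hz hz'
  obtain ⟨p, hp, hu⟩ := Branch_path hz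
  obtain ⟨p', hp', hu'⟩ := Branch_path hz'
  have h1 : (SimpleGraph.Walk.cons hy p).IsPath := by
    rw [SimpleGraph.Walk.cons_isPath_iff]
    exact ⟨hp, hu⟩
  have h2 : (SimpleGraph.Walk.cons hy' p').IsPath := by
    rw [SimpleGraph.Walk.cons_isPath_iff]
    exact ⟨hp', hu'⟩
  have h3 := congrArg (fun w : G.Walk x z => w.getVert 1) (Branch_unique hG h1 h2)
  simp only [SimpleGraph.Walk.getVert_cons_succ, SimpleGraph.Walk.getVert_zero] at h3
  exact hne h3

theorem Br_no_edge {G : SimpleGraph V} (hG : G.IsAcyclic) {x y y' z z' : V} (hy : G.Adj x y)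
    (hy' : G.Adj x y') (hne : y ≠ y') (hz : z ∈ Br G x y) (hz' : z' ∈ Br G x y') :
    ¬ G.Adj z z' := by
  intro h
  have hx : z' ≠ x := fun e => not_mem_Br G x y' (e ▸ hz')
  exact Set.disjoint_left.1 (Br_disjoint hG hy hy' hne) (Br_closed hz h hx) hz'

theorem Br_subset {G : SimpleGraph V} (hG : G.IsAcyclic) {u x y : V} (hux : G.Adj u x)
    (hxy : G.Adj x y) (hyu : y ≠ u) : Br G x y ⊆ Br G u x := by
  classical
  intro z hz
  obtain ⟨p, hp⟩ := hz
  have hu : u ∉ p.support := by
    intro hu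
    have h1 : u ∈ Br G x y :=
      ⟨p.takeUntil u hu, fun h => hp (p.support_takeUntil_subset_support hu h)⟩
    have h2 : u ∈ Br G x u := mem_Br_self G hux.ne.symm
    exact Set.disjoint_left.1 (Br_disjoint hG hxy hux.symm hyu) h1 h2
  refine ⟨SimpleGraph.Walk.cons hxy p, ?_⟩
  rw [SimpleGraph.Walk.support_cons, List.mem_cons, not_or]
  exact ⟨hux.ne, hu⟩

theorem Branch_first {G : SimpleGraph V} {x z : V} {p : G.Walk x z} (hp : p.IsPath) :
    z = x ∨ ∃ y, G.Adj x y ∧ y ∈ p.support ∧ z ∈ Br G x y := by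
  cases p with
  | nil => exact Or.inl rfl
  | @cons _ y _ h q =>
    rw [SimpleGraph.Walk.cons_isPath_iff] at hp
    refine Or.inr ⟨y, h, ?_, q, hp.2⟩
    rw [SimpleGraph.Walk.support_cons]
    exact List.mem_cons_of_mem _ q.start_mem_support

theorem Br_decomp {G : SimpleGraph V} (hG : G.IsAcyclic) {u x : V} (hux : G.Adj u x) :
    Br G u x = insert x (⋃ y ∈ {y | G.Adj x y ∧ y ≠ u}, Br G x y) := by
  ext z
  simp only [Set.mem_insert_iff, Set.mem_iUnion, Set.mem_setOf_eq, exists_prop]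
  constructor
  · intro hz
    obtain ⟨p, hp, hu⟩ := Branch_path hz
    rcases Branch_first hp with h | ⟨y, h1, h2, h3⟩
    · exact Or.inl h
    · exact Or.inr ⟨y, ⟨h1, fun e => hu (e ▸ h2)⟩, h3⟩
  · rintro (rfl | ⟨y, ⟨h1, h2⟩, h3⟩)
    · exact mem_Br_self G hux.ne
    · exact Br_subset hG hux h1 h2 h3

theorem comp_decomp (G : SimpleGraph V) (x : V) :
    {z | G.Reachable x z} = insert x (⋃ y ∈ {y | G.Adj x y}, Br G x y) := by
  classical
  ext z
  simp only [Set.mem_insert_iff, Set.mem_iUnion, Set.mem_setOf_eq, exists_prop]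
  constructor
  · rintro ⟨p⟩
    rcases Branch_first p.bypass_isPath with h | ⟨y, h1, h2, h3⟩
    · exact Or.inl h
    · exact Or.inr ⟨y, h1, h3⟩
  · rintro (rfl | ⟨y, h1, p, h2⟩)
    · exact SimpleGraph.Reachable.refl _
    · exact h1.reachable.trans p.reachable

theorem Br_ncard_lt [Finite V] {G : SimpleGraph V} (hG : G.IsAcyclic) {u x y : V}
    (hux : G.Adj u x) (hxy : G.Adj x y) (hyu : y ≠ u) :
    (Br G x y).ncard < (Br G u x).ncard := by
  refine Set.ncard_lt_ncard ⟨Br_subset hG hux hxy hyu, fun h => ?_⟩ (Set.toFinite _)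
  exact not_mem_Br G x y (h (mem_Br_self G hux.ne))

theorem Br_ncard_add_lt [Finite V] {G : SimpleGraph V} (hG : G.IsAcyclic) {u x y y' : V}
    (hux : G.Adj u x) (hxy : G.Adj x y) (hyu : y ≠ u) (hxy' : G.Adj x y') (hyu' : y' ≠ u)
    (hne : y ≠ y') : (Br G x y).ncard + (Br G x y').ncard < (Br G u x).ncard := by
  rw [← Set.ncard_union_eq (Br_disjoint hG hxy hxy' hne) (Set.toFinite _) (Set.toFinite _)]
  refine Set.ncard_lt_ncard
    ⟨Set.union_subset (Br_subset hG hux hxy hyu) (Br_subset hG hux hxy' hyu'), fun h => ?_⟩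
    (Set.toFinite _)
  rcases h (mem_Br_self G hux.ne) with h | h
  · exact not_mem_Br G x y h
  · exact not_mem_Br G x y' h

end Pool.Agent.DlaMaxCut.Forest
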