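import Pool.Agent.Lib_MP_debdb1.Defs

/-!
# MP_debdb1_mp, piece [CardGraph]: `2^(n choose 2)` graphs

Equivalence between `SimpleGraph V` and `Set {e : Sym2 V // ¬ e.IsDiag}` (edge set /
`SimpleGraph.fromEdgeSet`), `Sym2.card_subtype_not_diag`. (Look first whether Mathlib has it.)
-/

namespace Pool.Agent.DlaMaxCut.Count

universe u

/-- Graphs on `V` are the sets of non-diagonal unordered pairs. -/
noncomputable def cardGraphEquiv (V : Type u) :
    SimpleGraph V ≃ Set {e : Sym2 V // ¬ e.IsDiag} where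
  toFun G := {e | e.1 ∈ G.edgeSet}
  invFun s := SimpleGraph.fromEdgeSet (Subtype.val '' s)
  left_inv G := by
    ext a b
    simp only [SimpleGraph.fromEdgeSet_adj, Set.mem_image, Set.mem_setOf_eq, Subtype.exists,
      exists_and_left, exists_prop, ne_eq]
    constructor
    · rintro ⟨⟨e, he, _, rfl⟩, _⟩
      exact he
    · intro h
      exact ⟨⟨s(a, b), h, by simpa using h.ne, rfl⟩, h.ne⟩
  right_inv s := by
    ext ⟨e, he⟩
    simp only [Set.mem_setOf_eq, SimpleGraph.edgeSet_fromEdgeSet, Set.mem_diff, Set.mem_image,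
      Subtype.exists]
    constructor
    · rintro ⟨⟨e', he', hs, rfl⟩, _⟩
      exact hs
    · intro h
      exact ⟨⟨e, he, h, rfl⟩, he⟩

theorem card_simpleGraph (V : Type u) [Fintype V] [DecidableEq V] :
    Nat.card (SimpleGraph V) = 2 ^ (Fintype.card V).choose 2 := by
  rw [Nat.card_congr (cardGraphEquiv V), Nat.card_eq_fintype_card, Fintype.card_set,
    Sym2.card_subtype_not_diag]

end Pool.Agent.DlaMaxCut.Count
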