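import Pool.Agent.Lib_MP_debdb1.Inject

/-!
# MP_debdb1_mp, piece [Cover]: union bound over the partitions without singletons

If `r` is a setoid on `Fin n` such that every class has at least two elements, let `k` be the number
of classes (`Fintype.card (Quotient r)` classically). Then `1 ≤ k` (`n ≥ 1`) and `2 * k ≤ n` (choose in
each class two different elements: an injection `Quotient r × Bool → Fin n`). With a bijection
`Quotient r ≃ Fin k` we get a surjective `f : Fin n → Fin k` with `Setoid.ker f = r`. So the left side
is at most `∑ k ∈ Icc 1 (n/2), ∑ f : Fin n → Fin k, (number of the graphs with Mod2Equitable G (ker f))`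
over the surjective `f` (`Finset.card_biUnion_le`, or `Nat.card`/`Set.ncard` versions), there are
at most `k ^ n` functions `f`, and `card_equitable` bounds each term.
-/

namespace Pool.Agent.DlaMaxCut.Count

theorem cover_repr (n : ℕ) (hn : 1 ≤ n) (r : Setoid (Fin n)) (hr : ∀ v, ∃ w, w ≠ v ∧ r v w) :
    ∃ k ∈ Finset.Icc 1 (n / 2), ∃ f : Fin n → Fin k, Function.Surjective f ∧ Setoid.ker f = r := by
  classical
  have : Nonempty (Quotient r) := ⟨Quotient.mk r ⟨0, hn⟩⟩
  let _ : Fintype (Quotient r) := Fintype.ofFinite _
  have e : Quotient r ≃ Fin (Fintype.card (Quotient r)) := Fintype.equivFin _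
  refine ⟨Fintype.card (Quotient r), ?_, fun x => e (Quotient.mk r x), ?_, ?_⟩
  · rw [Finset.mem_Icc]
    constructor
    · exact Fintype.card_pos
    · choose g hg1 hg2 using hr
      have hi : Function.Injective (fun p : Quotient r × Bool =>
          if p.2 then p.1.out else g p.1.out) := by
        have hcl : ∀ p : Quotient r × Bool,
            Quotient.mk r (if p.2 then p.1.out else g p.1.out) = p.1 := by
          rintro ⟨q, b⟩
          cases b
          · simp only [Bool.false_eq_true, if_false]
            have h1 : Quotient.mk r (g q.out) = Quotient.mk r q.out :=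
              Quotient.sound (Setoid.symm (hg2 q.out))
            rw [h1, Quotient.out_eq]
          · simp only [if_true]
            exact Quotient.out_eq q
        intro p p' h
        have h1 : p.1 = p'.1 := by rw [← hcl p, ← hcl p']; exact congrArg _ h
        obtain ⟨q, b⟩ := p
        obtain ⟨q', b'⟩ := p'
        simp only at h1
        subst h1
        cases b <;> cases b'
        · rfl
        · simp only [Bool.false_eq_true, if_false, if_true] at h
          exact absurd h (hg1 _)
        · simp only [Bool.false_eq_true, if_false, if_true] at h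
          exact absurd h.symm (hg1 _)
        · rfl
      have h2 := Fintype.card_le_of_injective _ hi
      rw [Fintype.card_prod, Fintype.card_bool, Fintype.card_fin] at h2
      omega
  · intro a
    obtain ⟨x, hx⟩ := Quotient.exists_rep (e.symm a)
    exact ⟨x, by simp only [hx, Equiv.apply_symm_apply]⟩
  · ext x y
    rw [Setoid.ker_def, e.injective.eq_iff]
    exact Quotient.eq

theorem card_noSingleton (n : ℕ) (hn : 1 ≤ n) :
    Nat.card {G : SimpleGraph (Fin n) // ∃ r : Setoid (Fin n), Mod2Equitable G r ∧
        ∀ v, ∃ w, w ≠ v ∧ r v w} ≤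
      ∑ k ∈ Finset.Icc 1 (n / 2), k ^ n * 2 ^ ((n - k).choose 2 + k ^ 2) := by
  classical
  have h1 : Nat.card {G : SimpleGraph (Fin n) // ∃ r : Setoid (Fin n), Mod2Equitable G r ∧
      ∀ v, ∃ w, w ≠ v ∧ r v w} = (Finset.univ.filter fun G : SimpleGraph (Fin n) =>
        ∃ r : Setoid (Fin n), Mod2Equitable G r ∧ ∀ v, ∃ w, w ≠ v ∧ r v w).card := by
    rw [Nat.card_eq_fintype_card, Fintype.card_subtype]
  rw [h1]
  have h2 : (Finset.univ.filter fun G : SimpleGraph (Fin n) =>
      ∃ r : Setoid (Fin n), Mod2Equitable G r ∧ ∀ v, ∃ w, w ≠ v ∧ r v w) ⊆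
      (Finset.Icc 1 (n / 2)).biUnion fun k =>
        (Finset.univ.filter fun f : Fin n → Fin k => Function.Surjective f).biUnion fun f =>
          Finset.univ.filter fun G : SimpleGraph (Fin n) => Mod2Equitable G (Setoid.ker f) := by
    intro G hG
    rw [Finset.mem_filter] at hG
    obtain ⟨_, r, hr1, hr2⟩ := hG
    obtain ⟨k, hk, f, hf1, hf2⟩ := cover_repr n hn r hr2
    rw [Finset.mem_biUnion]
    refine ⟨k, hk, ?_⟩
    rw [Finset.mem_biUnion]
    refine ⟨f, Finset.mem_filter.2 ⟨Finset.mem_univ _, hf1⟩,
      Finset.mem_filter.2 ⟨Finset.mem_univ _, ?_⟩⟩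
    rw [hf2]
    exact hr1
  refine (Finset.card_le_card h2).trans (Finset.card_biUnion_le.trans (Finset.sum_le_sum ?_))
  intro k _
  refine Finset.card_biUnion_le.trans ?_
  have h3 : ∀ f ∈ (Finset.univ.filter fun f : Fin n → Fin k => Function.Surjective f),
      (Finset.univ.filter fun G : SimpleGraph (Fin n) => Mod2Equitable G (Setoid.ker f)).card ≤
        2 ^ ((n - k).choose 2 + k ^ 2) := by
    intro f hf
    rw [Finset.mem_filter] at hf
    have h4 := card_equitable n k f hf.2
    rw [Nat.card_eq_fintype_card, Fintype.card_subtype] at h4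
    exact h4
  refine (Finset.sum_le_card_nsmul _ _ _ h3).trans ?_
  rw [smul_eq_mul]
  refine Nat.mul_le_mul_right _ ?_
  refine (Finset.card_filter_le _ _).trans ?_
  rw [Finset.card_univ, Fintype.card_fun, Fintype.card_fin, Fintype.card_fin]

end Pool.Agent.DlaMaxCut.Count
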