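import Mathlib

/-!
# MP_debdb1_mp, piece [Numeric]

For `k ≤ n`: `n.choose 2 = (n - k).choose 2 + k * (n - k) + k.choose 2`, so
`2 * ((n-k).choose 2 + k^2) = 2 * n.choose 2 - 2 * k * n + 3 * k^2 + k` (write it additively in `ℕ`).
The claim is `k^n * 2^n * 2^(k^2) ≤ C * 2^(k (n-k) + k.choose 2)`, i.e. with `2 e = 3 k^2 + k`:
`k^n * 2^(n + e) ≤ C * 2^(k n)`.
* `k < 30`: `k ≤ 2^(k-1)` gives `k^n ≤ 2^((k-1) n)`, and `e ≤ 1365`. So `C = 2^1365` works.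
* `k ≥ 30`: `k^6 ≤ 2^k` (induction from `30^6 ≤ 2^30`). Sixth powers:
  `(k^n * 2^(n+e))^6 ≤ 2^(k n + 6 n + 6 e)`, `6 e = 9 k^2 + 3 k`, and
  `k n + 6 n + 9 k^2 + 3 k ≤ 6 k n` because `2 k ≤ n` gives `9 k^2 ≤ 4.5 k n`, `3 k ≤ 1.5 n`, and
  `7.5 n ≤ 0.5 k n` for `k ≥ 15`. So even `k^n * 2^(n+e) ≤ 2^(k n)`.
-/

namespace Pool.Agent.DlaMaxCut.Count

/-- `2 * (m choose 2) + m = m ^ 2`. -/
theorem numeric_two_choose (m : ℕ) : 2 * m.choose 2 + m = m ^ 2 := by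
  have h := Nat.choose_two_right m
  have h2 : 2 ∣ m * (m - 1) := by
    rcases m with _ | m
    · simp
    · simpa [mul_comm] using (Nat.even_mul_succ_self m).two_dvd
  have h3 : 2 * m.choose 2 = m * (m - 1) := by
    rw [h]; exact Nat.mul_div_cancel' h2
  rw [h3]
  rcases m with _ | m
  · simp
  · simp; ring

theorem numeric_pow6 (k : ℕ) (hk : 30 ≤ k) : k ^ 6 ≤ 2 ^ k := by
  induction k, hk using Nat.le_induction with
  | base => norm_num
  | succ k hk ih =>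
    have h1 : (k + 1) ^ 6 ≤ 2 * k ^ 6 := by
      have h2 : 30 * (k + 1) ≤ 31 * k := by omega
      have h3 : (30 * (k + 1)) ^ 6 ≤ (31 * k) ^ 6 := Nat.pow_le_pow_left h2 6
      rw [mul_pow, mul_pow] at h3
      have h4 : (31 : ℕ) ^ 6 ≤ 2 * 30 ^ 6 := by norm_num
      have h5 : 30 ^ 6 * (k + 1) ^ 6 ≤ 30 ^ 6 * (2 * k ^ 6) := by
        calc 30 ^ 6 * (k + 1) ^ 6 ≤ 31 ^ 6 * k ^ 6 := h3
          _ ≤ (2 * 30 ^ 6) * k ^ 6 := Nat.mul_le_mul_right _ h4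
          _ = 30 ^ 6 * (2 * k ^ 6) := by ring
      exact Nat.le_of_mul_le_mul_left h5 (by positivity)
    calc (k + 1) ^ 6 ≤ 2 * k ^ 6 := h1
      _ ≤ 2 * 2 ^ k := Nat.mul_le_mul_left _ ih
      _ = 2 ^ (k + 1) := by ring

theorem numeric : ∃ C : ℕ, ∀ n k : ℕ, 1 ≤ k → 2 * k ≤ n →
    k ^ n * 2 ^ ((n - k).choose 2 + k ^ 2) * 2 ^ n ≤ C * 2 ^ (n.choose 2) := by
  refine ⟨2 ^ 1365, ?_⟩
  intro n k hk hkn
  obtain ⟨m, rfl⟩ : ∃ m, n = k + m := ⟨n - k, by omega⟩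
  have hsub : k + m - k = m := by omega
  rw [hsub]
  have hkm : k ≤ m := by omega
  have c1 := numeric_two_choose m
  have c2 := numeric_two_choose (k + m)
  set a := m.choose 2 with ha
  set b := (k + m).choose 2 with hb
  -- exponents: `e` with `2 e = 3 k ^ 2 + k`
  obtain ⟨e, he⟩ : ∃ e, 2 * e = 3 * k ^ 2 + k := by
    have : Even (3 * k ^ 2 + k) := by
      rcases Nat.even_or_odd k with h | h
      · obtain ⟨r, rfl⟩ := h
        exact ⟨6 * r ^ 2 + r, by ring⟩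
      · obtain ⟨r, rfl⟩ := h
        exact ⟨6 * r ^ 2 + 7 * r + 2, by ring⟩
    obtain ⟨r, hr⟩ := this
    exact ⟨r, by omega⟩
  -- `b + e = a + k ^ 2 + k * (k + m)`
  have hab : a + k ^ 2 + k * (k + m) = b + e := by
    have e1 : (k + m) ^ 2 = k ^ 2 + 2 * (k * m) + m ^ 2 := by ring
    have e2 : k * (k + m) = k ^ 2 + k * m := by ring
    rw [e1] at c2
    rw [e2]
    omega
  have key : k ^ (k + m) * 2 ^ (k + m) * 2 ^ e ≤ 2 ^ 1365 * 2 ^ (k * (k + m)) := by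
    rcases lt_or_ge k 30 with hk30 | hk30
    · have h1 : k ≤ 2 ^ (k - 1) := by
        have := Nat.lt_two_pow_self (n := k - 1)
        omega
      have h2 : k ^ (k + m) ≤ 2 ^ ((k - 1) * (k + m)) := by
        calc k ^ (k + m) ≤ (2 ^ (k - 1)) ^ (k + m) := Nat.pow_le_pow_left h1 _
          _ = 2 ^ ((k - 1) * (k + m)) := by rw [← pow_mul]
      have h3 : e ≤ 1365 := by
        have : k ^ 2 ≤ 29 ^ 2 := Nat.pow_le_pow_left (by omega) 2
        omega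
      have h4 : (k - 1) * (k + m) + (k + m) = k * (k + m) := by
        obtain ⟨j, rfl⟩ : ∃ j, k = j + 1 := ⟨k - 1, by omega⟩
        simp
        ring
      calc k ^ (k + m) * 2 ^ (k + m) * 2 ^ e
          ≤ 2 ^ ((k - 1) * (k + m)) * 2 ^ (k + m) * 2 ^ e :=
            Nat.mul_le_mul_right _ (Nat.mul_le_mul_right _ h2)
        _ = 2 ^ e * 2 ^ (k * (k + m)) := by rw [← pow_add, h4, mul_comm]
        _ ≤ 2 ^ 1365 * 2 ^ (k * (k + m)) :=
            Nat.mul_le_mul_right _ (Nat.pow_le_pow_right (by norm_num) h3)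
    · have h1 := numeric_pow6 k hk30
      have h2 : (k ^ (k + m) * 2 ^ (k + m) * 2 ^ e) ^ 6 ≤ (2 ^ (k * (k + m))) ^ 6 := by
        have h3 : (k ^ (k + m) * 2 ^ (k + m) * 2 ^ e) ^ 6
            = (k ^ 6) ^ (k + m) * 2 ^ (6 * (k + m) + 6 * e) := by
          rw [mul_pow, mul_pow, ← pow_mul, ← pow_mul, ← pow_mul, ← pow_mul, pow_add,
            mul_comm (k + m) 6, mul_comm e 6]
          ring
        rw [h3]
        calc (k ^ 6) ^ (k + m) * 2 ^ (6 * (k + m) + 6 * e)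
            ≤ (2 ^ k) ^ (k + m) * 2 ^ (6 * (k + m) + 6 * e) :=
              Nat.mul_le_mul_right _ (Nat.pow_le_pow_left h1 _)
          _ = 2 ^ (k * (k + m) + (6 * (k + m) + 6 * e)) := by rw [← pow_mul, ← pow_add]
          _ ≤ 2 ^ (k * (k + m) * 6) := by
              apply Nat.pow_le_pow_right (by norm_num)
              have h6 : 6 * e = 9 * k ^ 2 + 3 * k := by omega
              rw [h6]
              nlinarith [Nat.mul_le_mul_left k hkm, Nat.mul_le_mul_right m hk30,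
                Nat.mul_le_mul_right k hk30]
          _ = (2 ^ (k * (k + m))) ^ 6 := by rw [← pow_mul]
      have h7 : k ^ (k + m) * 2 ^ (k + m) * 2 ^ e ≤ 2 ^ (k * (k + m)) :=
        le_of_pow_le_pow_left₀ (by norm_num) (by positivity) h2
      calc k ^ (k + m) * 2 ^ (k + m) * 2 ^ e ≤ 2 ^ (k * (k + m)) := h7
        _ ≤ 2 ^ 1365 * 2 ^ (k * (k + m)) := Nat.le_mul_of_pos_left _ (by positivity)
  -- conclude
  have hfin : 2 ^ e * (k ^ (k + m) * 2 ^ (a + k ^ 2) * 2 ^ (k + m))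
      ≤ 2 ^ e * (2 ^ 1365 * 2 ^ b) := by
    calc 2 ^ e * (k ^ (k + m) * 2 ^ (a + k ^ 2) * 2 ^ (k + m))
        = (k ^ (k + m) * 2 ^ (k + m) * 2 ^ e) * 2 ^ (a + k ^ 2) := by ring
      _ ≤ (2 ^ 1365 * 2 ^ (k * (k + m))) * 2 ^ (a + k ^ 2) := Nat.mul_le_mul_right _ key
      _ = 2 ^ 1365 * 2 ^ (a + k ^ 2 + k * (k + m)) := by
          rw [mul_assoc, ← pow_add, add_comm (k * (k + m)) (a + k ^ 2)]
      _ = 2 ^ 1365 * 2 ^ (b + e) := by rw [hab]
      _ = 2 ^ e * (2 ^ 1365 * 2 ^ b) := by rw [pow_add]; ring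
  exact Nat.le_of_mul_le_mul_left hfin (by positivity)

end Pool.Agent.DlaMaxCut.Count
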