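import Pool.Agent.Lib_MP_debdb1.Assembly
import Pool.Agent.Lib_MP_debdb1.Cover
import Pool.Agent.Lib_MP_debdb1.Numeric

/-!
# MP_debdb1_mp, piece [CountMain]: all but an exponentially small proportion of the graphs

If no vertex `v` has `finrank (redDLA G v) < finrank (fullDLA G)` then, by `main_exists`, some
`r` with `Mod2Equitable G r` has no singleton class: the failing graphs inject into the set of
`card_noSingleton`. Then `numeric` bounds each of the at most `n/2 ≤ n` terms by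
`C * 2^(n.choose 2) / 2^n`, and `card_simpleGraph` gives `2^(n.choose 2)` graphs.
-/

namespace Pool.Agent.DlaMaxCut.Count

theorem failing_le : ∃ C : ℝ, ∀ n : ℕ, 1 ≤ n →
    (Nat.card {G : SimpleGraph (Fin n) //
      ¬ ∃ v : Fin n, Module.finrank ℝ (redDLA G v) < Module.finrank ℝ (fullDLA G)} : ℝ) ≤
      C * n / 2 ^ n * Nat.card (SimpleGraph (Fin n)) := by
  obtain ⟨C, hC⟩ := numeric
  refine ⟨C, fun n hn => ?_⟩
  have h1 : Nat.card {G : SimpleGraph (Fin n) //
      ¬ ∃ v : Fin n, Module.finrank ℝ (redDLA G v) < Module.finrank ℝ (fullDLA G)} ≤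
      Nat.card {G : SimpleGraph (Fin n) // ∃ r : Setoid (Fin n), Mod2Equitable G r ∧
        ∀ v, ∃ w, w ≠ v ∧ r v w} := by
    have hsub : ∀ G : SimpleGraph (Fin n),
        (¬ ∃ v : Fin n, Module.finrank ℝ (redDLA G v) < Module.finrank ℝ (fullDLA G)) →
        ∃ r : Setoid (Fin n), Mod2Equitable G r ∧ ∀ v, ∃ w, w ≠ v ∧ r v w := by
      intro G hG
      by_contra hcon
      push Not at hcon
      refine hG (main_exists G fun r hr => ?_)
      obtain ⟨v, hv⟩ := hcon r hr
      refine ⟨v, fun w hw => ?_⟩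
      by_contra hne
      exact hv w hne hw
    refine Nat.card_le_card_of_injective (fun G => ⟨G.1, hsub G.1 G.2⟩) ?_
    intro G G' h
    exact Subtype.ext (Subtype.mk.inj h)
  have h2 := h1.trans (card_noSingleton n hn)
  have h3 : (∑ k ∈ Finset.Icc 1 (n / 2), k ^ n * 2 ^ ((n - k).choose 2 + k ^ 2)) * 2 ^ n ≤
      n * (C * 2 ^ (n.choose 2)) := by
    rw [Finset.sum_mul]
    refine (Finset.sum_le_card_nsmul _ _ (C * 2 ^ (n.choose 2)) fun k hk => ?_).trans ?_
    · obtain ⟨hk1, hk2⟩ := Finset.mem_Icc.1 hk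
      exact hC n k hk1 (by omega)
    · rw [smul_eq_mul, Nat.card_Icc]
      exact Nat.mul_le_mul_right _ (by omega)
  have h4 := (Nat.mul_le_mul_right (2 ^ n) h2).trans h3
  have h5 : Nat.card (SimpleGraph (Fin n)) = 2 ^ (n.choose 2) := by
    rw [card_simpleGraph, Fintype.card_fin]
  rw [h5]
  have h6 : ((Nat.card {G : SimpleGraph (Fin n) //
      ¬ ∃ v : Fin n, Module.finrank ℝ (redDLA G v) < Module.finrank ℝ (fullDLA G)} : ℕ) : ℝ) *
      2 ^ n ≤ n * (C * 2 ^ (n.choose 2)) := by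
    exact_mod_cast h4
  have h7 : (0 : ℝ) < 2 ^ n := by positivity
  have h8 : (C : ℝ) * n / 2 ^ n * ((2 ^ (n.choose 2) : ℕ) : ℝ) =
      n * (C * 2 ^ (n.choose 2)) / 2 ^ n := by
    push_cast
    ring
  rw [h8, le_div_iff₀ h7]
  exact h6

end Pool.Agent.DlaMaxCut.Count
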