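import Pool.Agent.Lib_MP_debdb1.Pauli

/-!
# MP_debdb1_mp, piece [Cut]: the cost operator as a diagonal matrix, one spin flip
-/

namespace Pool.Agent.DlaMaxCut

open Matrix

universe u

variable {V : Type u} [Fintype V] [DecidableEq V]

/-- The value of the spin `j` in the configuration `x`. -/
noncomputable def spin (j : V) (x : V → Bool) : ℤ := if x j then -1 else 1

open Classical in
/-- `∑_{ {j,k} ∈ E } z_j z_k` as half of a double sum. -/
noncomputable def cutVal (G : SimpleGraph V) (x : V → Bool) : ℝ :=
  (1 / 2) * ∑ j : V, ∑ k : V, if G.Adj j k then (spin j x : ℝ) * (spin k x : ℝ) else 0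

theorem costH_eq_diagonal (G : SimpleGraph V) :
    costH G = Matrix.diagonal fun x => ((cutVal G x : ℝ) : ℂ) := by
  sorry

open Classical in
/-- The sum of the spins of the neighbours of `j`. -/
noncomputable def nbrSum (G : SimpleGraph V) (j : V) (x : V → Bool) : ℤ :=
  ∑ k : V, if G.Adj j k then spin k x else 0

/-- Flipping the spin `j` changes the cut function by `2 z_j s_j`. (Split the double sum into the
terms with first index `j`, the terms with second index `j`, and the other ones, which do not
change; `G.Adj j j` is false.) -/
theorem cutVal_sub_flip (G : SimpleGraph V) (j : V) (x : V → Bool) :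
    cutVal G x - cutVal G (flipAt j x) = 2 * (spin j x : ℝ) * (nbrSum G j x : ℝ) := by
  sorry

theorem abs_nbrSum_le (G : SimpleGraph V) (j : V) (x : V → Bool) :
    |nbrSum G j x| ≤ Fintype.card V := by
  sorry

/-- `s_j(x)` has the parity of the degree of `j` (each term is odd for a neighbour). -/
theorem odd_nbrSum_iff (G : SimpleGraph V) (j : V) (x : V → Bool) :
    Odd (nbrSum G j x) ↔ Odd {w : V | G.Adj j w}.ncard := by
  sorry

end Pool.Agent.DlaMaxCut
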