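import Mathlib

/-!
# MP_debdb1_mp: definitions

Qubits are indexed by a finite type `V`; the computational basis of `(ℂ²)^{⊗V}` is the set of
configurations `V → Bool` (`false` is `Z = +1`, `true` is `Z = -1`).
-/

namespace Pool.Agent.DlaMaxCut

open Matrix

universe u

section Defs

variable {V : Type u} [Fintype V] [DecidableEq V]

/-- The configuration `x` with the spin at `j` flipped. -/
def flipAt (j : V) (x : V → Bool) : V → Bool := Function.update x j (!(x j))

/-- The Pauli matrix `Z` on the factor `j` (tensored with identities). -/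
def pauliZ (j : V) : Matrix (V → Bool) (V → Bool) ℂ :=
  Matrix.diagonal fun x => if x j then -1 else 1

/-- The Pauli matrix `X` on the factor `j` (tensored with identities). -/
def pauliX (j : V) : Matrix (V → Bool) (V → Bool) ℂ :=
  Matrix.of fun x y => if y = flipAt j x then 1 else 0

theorem pauliZ_mul_comm (j k : V) : pauliZ j * pauliZ k = pauliZ k * pauliZ j := by
  unfold pauliZ
  rw [Matrix.diagonal_mul_diagonal, Matrix.diagonal_mul_diagonal]
  congr 1
  funext x
  ring

open Classical in
/-- The cost operator `∑_{ {j,k} ∈ E } Z_j Z_k`. -/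
noncomputable def costH (G : SimpleGraph V) : Matrix (V → Bool) (V → Bool) ℂ :=
  ∑ e ∈ G.edgeFinset,
    Sym2.lift ⟨fun j k => pauliZ j * pauliZ k, fun j k => pauliZ_mul_comm j k⟩ e

/-- The mixer `∑_j X_j`. -/
noncomputable def mixH (V : Type u) [Fintype V] [DecidableEq V] :
    Matrix (V → Bool) (V → Bool) ℂ := ∑ j : V, pauliX j

open Classical in
/-- The reduced cost operator at `v`: substitute `Z_v = +1`. It acts on the qubits `w ≠ v`. -/
noncomputable def costRed (G : SimpleGraph V) (v : V) :
    Matrix ({w : V // w ≠ v} → Bool) ({w : V // w ≠ v} → Bool) ℂ :=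
  costH (G.comap (Subtype.val : {w : V // w ≠ v} → V)) +
    ∑ w : {w : V // w ≠ v}, if G.Adj v w.1 then pauliZ w else 0

/-- The real Lie algebra generated by `iA` and `iB`: the smallest real subspace which contains
`iA` and `iB` and is closed under the commutator `MN - NM`. -/
noncomputable def dla {ι : Type u} [Fintype ι] (A B : Matrix ι ι ℂ) :
    Submodule ℝ (Matrix ι ι ℂ) :=
  sInf {S | Complex.I • A ∈ S ∧ Complex.I • B ∈ S ∧ ∀ M ∈ S, ∀ N ∈ S, M * N - N * M ∈ S}

/-- The full (standard) dynamical Lie algebra of MaxCut QAOA on `G`. -/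
noncomputable def fullDLA (G : SimpleGraph V) :
    Submodule ℝ (Matrix (V → Bool) (V → Bool) ℂ) :=
  dla (costH G) (mixH V)

/-- The reduced dynamical Lie algebra at the vertex `v`. -/
noncomputable def redDLA (G : SimpleGraph V) (v : V) :
    Submodule ℝ (Matrix ({w : V // w ≠ v} → Bool) ({w : V // w ≠ v} → Bool) ℂ) :=
  dla (costRed G v) (mixH {w : V // w ≠ v})

/-- The partition of `V` into the classes of `r` is equitable modulo 2: if `j` and `k` lie in the
same class, then for every class `[l]` the numbers of neighbours of `j` and of `k` in `[l]` have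
the same parity. -/
def Mod2Equitable {V : Type u} (G : SimpleGraph V) (r : Setoid V) : Prop :=
  ∀ j k l : V, r j k →
    (Odd {w : V | G.Adj j w ∧ r l w}.ncard ↔ Odd {w : V | G.Adj k w ∧ r l w}.ncard)

end Defs

/-! ### API of `dla` -/

section Api

variable {ι : Type u} [Fintype ι]

theorem dla_left (A B : Matrix ι ι ℂ) : Complex.I • A ∈ dla A B := by
  unfold dla
  rw [Submodule.mem_sInf]
  intro S hS
  exact hS.1

theorem dla_right (A B : Matrix ι ι ℂ) : Complex.I • B ∈ dla A B := by
  unfold dla
  rw [Submodule.mem_sInf]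
  intro S hS
  exact hS.2.1

theorem dla_comm (A B : Matrix ι ι ℂ) {M N : Matrix ι ι ℂ} (hM : M ∈ dla A B)
    (hN : N ∈ dla A B) : M * N - N * M ∈ dla A B := by
  unfold dla at *
  rw [Submodule.mem_sInf] at *
  intro S hS
  exact hS.2.2 M (hM S hS) N (hN S hS)

theorem dla_le (A B : Matrix ι ι ℂ) (S : Submodule ℝ (Matrix ι ι ℂ)) (hA : Complex.I • A ∈ S)
    (hB : Complex.I • B ∈ S) (hS : ∀ M ∈ S, ∀ N ∈ S, M * N - N * M ∈ S) : dla A B ≤ S := by
  unfold dla
  exact sInf_le ⟨hA, hB, hS⟩

end Api

section Tools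

variable {V : Type u} [Fintype V] [DecidableEq V]

/-- `X_u = ∑_j u_j X_j`. -/
noncomputable def mixW (u : V → ℝ) : Matrix (V → Bool) (V → Bool) ℂ :=
  ∑ j : V, (u j) • pauliX j

open Classical in
/-- Indicator function of a set of vertices. -/
noncomputable def ind {V : Type u} (S : Set V) : V → ℝ := fun j => if j ∈ S then 1 else 0

/-- The bipartite subgraph of the edges of `G` between `B` and its complement. -/
def bdry {V : Type u} (G : SimpleGraph V) (B : Set V) : SimpleGraph V :=
  SimpleGraph.fromRel fun j k => G.Adj j k ∧ ¬ (j ∈ B ↔ k ∈ B)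

theorem bdry_adj {V : Type u} (G : SimpleGraph V) (B : Set V) (j k : V) :
    (bdry G B).Adj j k ↔ G.Adj j k ∧ ¬ (j ∈ B ↔ k ∈ B) := by
  unfold bdry
  rw [SimpleGraph.fromRel_adj]
  constructor
  · rintro ⟨_, h | h⟩
    · exact h
    · exact ⟨h.1.symm, fun h' => h.2 h'.symm⟩
  · intro h
    exact ⟨h.1.ne, Or.inl h⟩

open Classical in
/-- `1` at the vertices of odd degree, `0` at the others. -/
noncomputable def oddDeg {V : Type u} (G : SimpleGraph V) : V → ℝ := fun j =>
  if Odd {w : V | G.Adj j w}.ncard then 1 else 0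

end Tools

end Pool.Agent.DlaMaxCut
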