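import Pool.Agent.Lib_MP_debdb1.Defs

/-!
# MP_debdb1_mp, piece [DiagPoly]

`exists_parity_poly`: Lagrange interpolation on the nodes `0², 1², ..., N²` (pairwise distinct), e.g.
`Lagrange.interpolate (Finset.range (N+1)) (fun i => (i:ℝ)^2) (fun i => if Odd i then 1 else 0)` and
`Lagrange.eval_interpolate_at_node`; for `t : ℤ` use `t.natAbs` (`(t:ℝ)^2 = (t.natAbs:ℝ)^2`,
`Int.natAbs_odd`).

`diag_poly_mem`: let `D = I • diagonal c`. Then
`D * (D * M - M * D) - (D * M - M * D) * D` has entries `-(c x - c y)^2 * M x y`. So the real linear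
map `T M = of fun x y => ((c x - c y)/2)^2 * M x y` maps `g` to `g`. By induction on `p`
(`Polynomial.induction_on'` or `Polynomial.induction_on`) the matrix
`of fun x y => p.eval (((c x - c y)/2)^2) * M x y` is in `g` for every `M ∈ g`.
-/

namespace Pool.Agent.DlaMaxCut

open Matrix

universe u

theorem exists_parity_poly (N : ℕ) : ∃ p : Polynomial ℝ, ∀ t : ℤ, |t| ≤ N →
    p.eval ((t : ℝ) ^ 2) = if Odd t then 1 else 0 := by
  have hinj : Set.InjOn (fun i : ℕ => (i : ℝ) ^ 2) (Finset.range (N + 1)) := by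
    intro i _ j _ h
    have h1 : (i : ℝ) = j := (pow_left_inj₀ (Nat.cast_nonneg i) (Nat.cast_nonneg j)
      (two_ne_zero)).1 h
    exact_mod_cast h1
  refine ⟨Lagrange.interpolate (Finset.range (N + 1)) (fun i : ℕ => (i : ℝ) ^ 2)
    (fun i : ℕ => if Odd i then 1 else 0), fun t ht => ?_⟩
  have h1 : t.natAbs ∈ Finset.range (N + 1) := by
    rw [Finset.mem_range]
    have : (t.natAbs : ℤ) ≤ N := by rw [Int.natCast_natAbs]; exact ht
    omega
  have h2 : (t : ℝ) ^ 2 = (t.natAbs : ℝ) ^ 2 := by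
    rw [Nat.cast_natAbs, Int.cast_abs, sq_abs]
  have h3 := Lagrange.eval_interpolate_at_node
    (r := fun i : ℕ => if Odd i then (1 : ℝ) else 0) hinj h1
  rw [h2]
  refine h3.trans ?_
  simp only [Int.natAbs_odd]

private theorem diagpoly_T {ι : Type u} [Fintype ι] [DecidableEq ι]
    (g : Submodule ℝ (Matrix ι ι ℂ)) (hg : ∀ M ∈ g, ∀ N ∈ g, M * N - N * M ∈ g) (c : ι → ℝ)
    (hc : Complex.I • Matrix.diagonal (fun x => ((c x : ℝ) : ℂ)) ∈ g) (M : Matrix ι ι ℂ)
    (hM : M ∈ g) :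
    (Matrix.of fun x y => (((((c x - c y) / 2) ^ 2 : ℝ)) : ℂ) * M x y) ∈ g := by
  have h1 := hg _ hc _ (hg _ hc _ hM)
  have h2 := g.smul_mem (-(1 / 4 : ℝ)) h1
  have h3 : (-(1 / 4 : ℝ)) • (Complex.I • Matrix.diagonal (fun x => ((c x : ℝ) : ℂ)) *
      (Complex.I • Matrix.diagonal (fun x => ((c x : ℝ) : ℂ)) * M -
        M * Complex.I • Matrix.diagonal (fun x => ((c x : ℝ) : ℂ))) -
      (Complex.I • Matrix.diagonal (fun x => ((c x : ℝ) : ℂ)) * M -
        M * Complex.I • Matrix.diagonal (fun x => ((c x : ℝ) : ℂ))) *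
      Complex.I • Matrix.diagonal (fun x => ((c x : ℝ) : ℂ))) =
      Matrix.of fun x y => (((((c x - c y) / 2) ^ 2 : ℝ)) : ℂ) * M x y := by
    ext x y
    simp only [Matrix.smul_apply, Matrix.sub_apply, Matrix.smul_mul, Matrix.mul_smul,
      Matrix.diagonal_mul, Matrix.mul_diagonal, Matrix.of_apply, smul_eq_mul,
      Complex.real_smul]
    push_cast
    linear_combination (-(1 / 4) * ((c x : ℂ) - c y) ^ 2 * M x y) * Complex.I_mul_I
  rw [h3] at h2
  exact h2

theorem diag_poly_mem {ι : Type u} [Fintype ι] [DecidableEq ι] (g : Submodule ℝ (Matrix ι ι ℂ))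
    (hg : ∀ M ∈ g, ∀ N ∈ g, M * N - N * M ∈ g) (c : ι → ℝ)
    (hc : Complex.I • Matrix.diagonal (fun x => ((c x : ℝ) : ℂ)) ∈ g) (p : Polynomial ℝ) :
    ∀ M ∈ g, (Matrix.of fun x y => ((p.eval (((c x - c y) / 2) ^ 2) : ℝ) : ℂ) * M x y) ∈ g := by
  induction p using Polynomial.induction_on with
  | C a =>
    intro M hM
    have h : (Matrix.of fun x y =>
        (((Polynomial.C a).eval (((c x - c y) / 2) ^ 2) : ℝ) : ℂ) * M x y) = a • M := by
      ext x y
      simp [Complex.real_smul]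
    rw [h]
    exact g.smul_mem a hM
  | add p q hp hq =>
    intro M hM
    have h : (Matrix.of fun x y =>
        (((p + q).eval (((c x - c y) / 2) ^ 2) : ℝ) : ℂ) * M x y) =
        (Matrix.of fun x y => ((p.eval (((c x - c y) / 2) ^ 2) : ℝ) : ℂ) * M x y) +
        (Matrix.of fun x y => ((q.eval (((c x - c y) / 2) ^ 2) : ℝ) : ℂ) * M x y) := by
      ext x y
      simp only [Polynomial.eval_add, Complex.ofReal_add, add_mul, Matrix.of_apply,
        Matrix.add_apply]
    rw [h]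
    exact g.add_mem (hp M hM) (hq M hM)
  | monomial n a hn =>
    intro M hM
    have h := hn _ (diagpoly_T g hg c hc M hM)
    have h2 : (Matrix.of fun x y =>
        (((Polynomial.C a * Polynomial.X ^ (n + 1)).eval (((c x - c y) / 2) ^ 2) : ℝ) : ℂ) *
          M x y) =
        (Matrix.of fun x y =>
        (((Polynomial.C a * Polynomial.X ^ n).eval (((c x - c y) / 2) ^ 2) : ℝ) : ℂ) *
          (Matrix.of fun x y => (((((c x - c y) / 2) ^ 2 : ℝ)) : ℂ) * M x y) x y) := by
      ext x y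
      simp only [Matrix.of_apply, Polynomial.eval_mul, Polynomial.eval_C, Polynomial.eval_pow,
        Polynomial.eval_X, pow_succ (((c x - c y) / 2) ^ 2) n]
      push_cast
      ring
    rw [h2]
    exact h

end Pool.Agent.DlaMaxCut
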