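import Pool.Agent.Lib_MP_debdb1.Defs

/-!
# MP_debdb1_mp, piece [Match]: matching two transversals with equal parities

`matching`: for `y ∈ C` the class `[y]` meets `C` in exactly `{y}`, an odd number of elements, so it
meets `C'` in an odd number, hence in at least one element: `β y`. It is unique by `h2`. Injective:
`β y = β z` gives `r y z`, so `y = z` by `h1`. Surjective: symmetric.
`children_parity`: removing `u` (a neighbour of `x`) and `u'` (a neighbour of `x'`) changes the number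
of neighbours in the class `[l]` by `1` if `r l u` (iff `r l u'`) and by `0` otherwise.
-/

namespace Pool.Agent.DlaMaxCut.Forest

universe u

variable {V : Type u}

/-- If a class meets a transversal `C` in a point `y`, then it meets `C` in an odd number. -/
theorem matching_odd (r : Setoid V) (C : Set V)
    (h1 : ∀ y ∈ C, ∀ z ∈ C, r y z → y = z) (y : V) (hy : y ∈ C) :
    Odd (C ∩ {w | r y w}).ncard := by
  have he : C ∩ {w | r y w} = {y} := by
    ext z
    simp only [Set.mem_inter_iff, Set.mem_ofPred_eq, Set.mem_singleton_iff]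
    constructor
    · rintro ⟨hz, hyz⟩
      exact (h1 y hy z hz hyz).symm
    · rintro rfl
      exact ⟨hy, r.refl _⟩
  rw [he, Set.ncard_singleton]
  exact odd_one

/-- An odd set is nonempty. -/
theorem matching_nonempty (S : Set V) (h : Odd S.ncard) : ∃ z, z ∈ S := by
  rcases Set.eq_empty_or_nonempty S with h0 | h0
  · rw [h0, Set.ncard_empty] at h
    exact absurd h (by decide)
  · exact h0

theorem matching [Finite V] (r : Setoid V) (C C' : Set V)
    (h1 : ∀ y ∈ C, ∀ z ∈ C, r y z → y = z) (h2 : ∀ y ∈ C', ∀ z ∈ C', r y z → y = z)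
    (hpar : ∀ l : V, Odd (C ∩ {w | r l w}).ncard ↔ Odd (C' ∩ {w | r l w}).ncard) :
    ∃ β : V → V, (∀ y ∈ C, β y ∈ C' ∧ r y (β y)) ∧ (∀ y ∈ C, ∀ z ∈ C, β y = β z → y = z) ∧
      ∀ y' ∈ C', ∃ y ∈ C, β y = y' := by
  classical
  have hex : ∀ y ∈ C, ∃ z, z ∈ C' ∧ r y z := by
    intro y hy
    obtain ⟨z, hz⟩ := matching_nonempty _ ((hpar y).1 (matching_odd r C h1 y hy))
    exact ⟨z, hz.1, hz.2⟩
  have hex' : ∀ y' ∈ C', ∃ z, z ∈ C ∧ r y' z := by
    intro y' hy'
    obtain ⟨z, hz⟩ := matching_nonempty _ ((hpar y').2 (matching_odd r C' h2 y' hy'))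
    exact ⟨z, hz.1, hz.2⟩
  refine ⟨fun y => if h : ∃ z, z ∈ C' ∧ r y z then h.choose else y, ?_, ?_, ?_⟩
  · intro y hy
    simp only [dif_pos (hex y hy)]
    exact (hex y hy).choose_spec
  · intro y hy z hz hyz
    simp only [dif_pos (hex y hy), dif_pos (hex z hz)] at hyz
    have hy1 := (hex y hy).choose_spec.2
    have hz1 := (hex z hz).choose_spec.2
    rw [← hyz] at hz1
    exact h1 y hy z hz (r.trans hy1 (r.symm hz1))
  · intro y' hy'
    obtain ⟨y, hy, hyy⟩ := hex' y' hy'
    refine ⟨y, hy, ?_⟩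
    simp only [dif_pos (hex y hy)]
    have hs := (hex y hy).choose_spec
    exact (h2 y' hy' _ hs.1 (r.trans hyy hs.2)).symm

theorem nbr_parity {G : SimpleGraph V} {r : Setoid V} (hr : Mod2Equitable G r)
    {x x' : V} (hxx : r x x') (l : V) :
    Odd ({y | G.Adj x y} ∩ {w | r l w}).ncard ↔ Odd ({y | G.Adj x' y} ∩ {w | r l w}).ncard :=
  hr x x' l hxx

/-- Removing one neighbour. -/
theorem children_ncard [Finite V] {G : SimpleGraph V} {r : Setoid V} {u x : V} (hux : G.Adj u x)
    (l : V) :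
    (r l u → ({y | G.Adj x y ∧ y ≠ u} ∩ {w | r l w}).ncard + 1 =
      ({y | G.Adj x y} ∩ {w | r l w}).ncard) ∧
    (¬ r l u → ({y | G.Adj x y ∧ y ≠ u} ∩ {w | r l w}).ncard =
      ({y | G.Adj x y} ∩ {w | r l w}).ncard) := by
  constructor
  · intro h
    have he : {y | G.Adj x y ∧ y ≠ u} ∩ {w | r l w} = ({y | G.Adj x y} ∩ {w | r l w}) \ {u} := by
      ext z
      simp only [Set.mem_inter_iff, Set.mem_ofPred_eq, Set.mem_sdiff, Set.mem_singleton_iff]
      tauto
    rw [he]
    have hu : u ∈ ({y | G.Adj x y} ∩ {w | r l w} : Set V) := ⟨hux.symm, h⟩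
    exact Set.ncard_sdiff_singleton_add_one hu (Set.toFinite _)
  · intro h
    have he : {y | G.Adj x y ∧ y ≠ u} ∩ {w | r l w} = ({y | G.Adj x y} ∩ {w | r l w}) := by
      ext z
      simp only [Set.mem_inter_iff, Set.mem_ofPred_eq]
      constructor
      · rintro ⟨⟨h1, _⟩, h2⟩
        exact ⟨h1, h2⟩
      · rintro ⟨h1, h2⟩
        refine ⟨⟨h1, ?_⟩, h2⟩
        rintro rfl
        exact h h2
    rw [he]

theorem children_parity [Finite V] {G : SimpleGraph V} {r : Setoid V} (hr : Mod2Equitable G r)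
    {u x u' x' : V} (hux : G.Adj u x) (hux' : G.Adj u' x') (huu : r u u') (hxx : r x x') (l : V) :
    Odd ({y | G.Adj x y ∧ y ≠ u} ∩ {w | r l w}).ncard ↔
      Odd ({y | G.Adj x' y ∧ y ≠ u'} ∩ {w | r l w}).ncard := by
  have hp := nbr_parity hr hxx l
  obtain ⟨a1, a2⟩ := children_ncard (G := G) (r := r) hux l
  obtain ⟨b1, b2⟩ := children_ncard (G := G) (r := r) hux' l
  by_cases h : r l u
  · have h' : r l u' := r.trans h huu
    have a := a1 h
    have b := b1 h'
    rw [← a, ← b, Nat.odd_add_one, Nat.odd_add_one] at hp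
    exact not_iff_not.1 hp
  · have h' : ¬ r l u' := fun hc => h (r.trans hc (r.symm huu))
    rw [a2 h, b2 h']
    exact hp

end Pool.Agent.DlaMaxCut.Forest
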