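import Pool.Agent.Lib_MP_debdb1.IsoDef

/-!
# MP_debdb1_mp, piece [Swap]: automorphisms from isomorphisms of disjoint or equal vertex sets

`swap_aut`: `σ z = φ z` for `z ∈ S`, `ψ z` for `z ∈ S'`, `z` otherwise is an involution (`S`, `S'` are
disjoint) and preserves adjacency: pairs inside `S`, inside `S'`, outside `S ∪ S'` are clear; there is
no edge between `S` and `S'`; for `s ∈ S`, `t ∉ S ∪ S'` use `hout`; for `s' ∈ S'`, `t ∉ S ∪ S'` use
`hout` for `s = ψ s'`.
`ext_aut`: `σ z = φ z` for `z ∈ S`, `z` otherwise; the inverse is `ψ` on `S`.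
`branch_swap` is `swap_aut` for `S = Br G u x`, `S' = Br G u x'`: for `s ∈ S` and `t ∉ S`,
`G.Adj s t` forces `t = u` (`Br_closed`) and then `s = x` (`Br_adj_root`); `φ s = x'` iff `s = x`.
`comp_aut`: if `u` and `w` are reachable from each other the two sets are equal: `ext_aut`; else they
are disjoint and no edge leaves them: `swap_aut`.
-/

namespace Pool.Agent.DlaMaxCut.Forest

universe u

variable {V : Type u}

theorem Swap_of_invol {G : SimpleGraph V} (σ : V → V) (hs : ∀ z, σ (σ z) = z)
    (ha : ∀ a b, G.Adj a b → G.Adj (σ a) (σ b)) (x x' : V) (hx : σ x = x') :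
    ∃ τ : G ≃g G, τ x = x' := by
  refine ⟨⟨⟨σ, σ, hs, hs⟩, ?_⟩, hx⟩
  intro a b
  constructor
  · intro h
    have h1 := ha _ _ h
    rw [Equiv.coe_fn_mk, hs a, hs b] at h1
    exact h1
  · intro h
    exact ha a b h

theorem swap_aut {G : SimpleGraph V} (S S' : Set V) (x x' : V) (φ ψ : V → V)
    (h : IsoOn G S S' x x' φ ψ) (hx : x ∈ S) (hd : Disjoint S S')
    (hno : ∀ s ∈ S, ∀ t ∈ S', ¬ G.Adj s t)
    (hout : ∀ s ∈ S, ∀ t, t ∉ S → t ∉ S' → (G.Adj s t ↔ G.Adj (φ s) t)) :
    ∃ σ : G ≃g G, σ x = x' := by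
  classical
  have hS : ∀ z ∈ S, z ∉ S' := fun z hz => Set.disjoint_left.1 hd hz
  have hS' : ∀ z ∈ S', z ∉ S := fun z hz => Set.disjoint_right.1 hd hz
  let σ : V → V := fun z => if z ∈ S then φ z else if z ∈ S' then ψ z else z
  have e1 : ∀ z ∈ S, σ z = φ z := fun z hz => if_pos hz
  have e2 : ∀ z ∈ S', σ z = ψ z := fun z hz => by
    show (if z ∈ S then φ z else if z ∈ S' then ψ z else z) = ψ z
    rw [if_neg (hS' z hz), if_pos hz]
  have e3 : ∀ z, z ∉ S → z ∉ S' → σ z = z := fun z hz hz' => by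
    show (if z ∈ S then φ z else if z ∈ S' then ψ z else z) = z
    rw [if_neg hz, if_neg hz']
  have hout' : ∀ s ∈ S', ∀ t, t ∉ S → t ∉ S' → (G.Adj s t ↔ G.Adj (ψ s) t) := by
    intro s hs t ht ht'
    have h1 := hout (ψ s) (h.maps' s hs) t ht ht'
    rw [h.inv' s hs] at h1
    exact h1.symm
  refine Swap_of_invol σ ?_ ?_ x x' ?_
  · intro z
    by_cases hz : z ∈ S
    · rw [e1 z hz, e2 _ (h.maps z hz), h.inv z hz]
    · by_cases hz' : z ∈ S'
      · rw [e2 z hz', e1 _ (h.maps' z hz'), h.inv' z hz']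
      · rw [e3 z hz hz', e3 z hz hz']
  · intro a b hab
    by_cases ha : a ∈ S
    · by_cases hb : b ∈ S
      · rw [e1 a ha, e1 b hb]
        exact h.adj a ha b hb hab
      · by_cases hb' : b ∈ S'
        · exact absurd hab (hno a ha b hb')
        · rw [e1 a ha, e3 b hb hb']
          exact (hout a ha b hb hb').1 hab
    · by_cases ha' : a ∈ S'
      · by_cases hb : b ∈ S
        · exact absurd hab.symm (hno b hb a ha')
        · by_cases hb' : b ∈ S'
          · rw [e2 a ha', e2 b hb']
            exact h.adj' a ha' b hb' hab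
          · rw [e2 a ha', e3 b hb hb']
            exact (hout' a ha' b hb hb').1 hab
      · by_cases hb : b ∈ S
        · rw [e3 a ha ha', e1 b hb]
          exact ((hout b hb a ha ha').1 hab.symm).symm
        · by_cases hb' : b ∈ S'
          · rw [e3 a ha ha', e2 b hb']
            exact ((hout' b hb' a ha ha').1 hab.symm).symm
          · rw [e3 a ha ha', e3 b hb hb']
            exact hab
  · rw [e1 x hx]
    exact h.root

theorem ext_aut {G : SimpleGraph V} (S : Set V) (x x' : V) (φ ψ : V → V)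
    (h : IsoOn G S S x x' φ ψ) (hx : x ∈ S) (hcl : ∀ s ∈ S, ∀ t, t ∉ S → ¬ G.Adj s t) :
    ∃ σ : G ≃g G, σ x = x' := by
  classical
  let σ : V → V := fun z => if z ∈ S then φ z else z
  let τ : V → V := fun z => if z ∈ S then ψ z else z
  have e1 : ∀ z ∈ S, σ z = φ z := fun z hz => if_pos hz
  have e2 : ∀ z, z ∉ S → σ z = z := fun z hz => if_neg hz
  have f1 : ∀ z ∈ S, τ z = ψ z := fun z hz => if_pos hz
  have f2 : ∀ z, z ∉ S → τ z = z := fun z hz => if_neg hz
  have hl : ∀ z, τ (σ z) = z := by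
    intro z
    by_cases hz : z ∈ S
    · rw [e1 z hz, f1 _ (h.maps z hz), h.inv z hz]
    · rw [e2 z hz, f2 z hz]
  have hr : ∀ z, σ (τ z) = z := by
    intro z
    by_cases hz : z ∈ S
    · rw [f1 z hz, e1 _ (h.maps' z hz), h.inv' z hz]
    · rw [f2 z hz, e2 z hz]
  have ha : ∀ a b, G.Adj a b → G.Adj (σ a) (σ b) := by
    intro a b hab
    by_cases ha : a ∈ S
    · by_cases hb : b ∈ S
      · rw [e1 a ha, e1 b hb]
        exact h.adj a ha b hb hab
      · exact absurd hab (hcl a ha b hb)
    · by_cases hb : b ∈ S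
      · exact absurd hab.symm (hcl b hb a ha)
      · rw [e2 a ha, e2 b hb]
        exact hab
  have hb : ∀ a b, G.Adj a b → G.Adj (τ a) (τ b) := by
    intro a b hab
    by_cases ha : a ∈ S
    · by_cases hb : b ∈ S
      · rw [f1 a ha, f1 b hb]
        exact h.adj' a ha b hb hab
      · exact absurd hab (hcl a ha b hb)
    · by_cases hb : b ∈ S
      · exact absurd hab.symm (hcl b hb a ha)
      · rw [f2 a ha, f2 b hb]
        exact hab
  refine ⟨⟨⟨σ, τ, hl, hr⟩, ?_⟩, ?_⟩
  · intro a b
    constructor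
    · intro hab
      have h1 := hb _ _ hab
      rw [Equiv.coe_fn_mk, hl a, hl b] at h1
      exact h1
    · intro hab
      exact ha a b hab
  · exact (e1 x hx).trans h.root

theorem branch_swap {G : SimpleGraph V} (hG : G.IsAcyclic) {u x x' : V} (hx : G.Adj u x)
    (hx' : G.Adj u x') (hne : x ≠ x') (h : Iso G (Br G u x) (Br G u x') x x') :
    ∃ σ : G ≃g G, σ x = x' := by
  obtain ⟨φ, ψ, h⟩ := h
  have hxS : x ∈ Br G u x := mem_Br_self G hx.ne
  refine swap_aut (Br G u x) (Br G u x') x x' φ ψ h hxS (Br_disjoint hG hx hx' hne)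
    (fun s hs t ht => Br_no_edge hG hx hx' hne hs ht) ?_
  intro s hs t ht ht'
  constructor
  · intro hst
    have htu : t = u := by
      by_contra hne'
      exact ht (Br_closed hs hst hne')
    subst htu
    have hsx : s = x := Br_adj_root hG hx hs hst
    rw [hsx, h.root]
    exact hx'.symm
  · intro hst
    have hs' : φ s ∈ Br G u x' := h.maps s hs
    have htu : t = u := by
      by_contra hne'
      exact ht' (Br_closed hs' hst hne')
    subst htu
    have hsx : φ s = x' := Br_adj_root hG hx' hs' hst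
    have hsx' : s = x := by
      rw [← h.inv s hs, hsx, ← h.root, h.inv x hxS]
    rw [hsx']
    exact hx.symm

theorem comp_aut {G : SimpleGraph V} {u w : V}
    (h : Iso G {z | G.Reachable u z} {z | G.Reachable w z} u w) :
    ∃ σ : G ≃g G, σ u = w := by
  by_cases hr : G.Reachable u w
  · have he : {z | G.Reachable w z} = {z | G.Reachable u z} := by
      ext z
      exact ⟨fun hz => hr.trans hz, fun hz => hr.symm.trans hz⟩
    rw [he] at h
    obtain ⟨φ, ψ, h⟩ := h
    refine ext_aut {z | G.Reachable u z} u w φ ψ h (SimpleGraph.Reachable.refl u) ?_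
    intro s hs t ht hst
    exact ht (SimpleGraph.Reachable.trans hs hst.reachable)
  · obtain ⟨φ, ψ, h⟩ := h
    refine swap_aut {z | G.Reachable u z} {z | G.Reachable w z} u w φ ψ h
      (SimpleGraph.Reachable.refl u) ?_ ?_ ?_
    · rw [Set.disjoint_left]
      intro z hz hz'
      exact hr (SimpleGraph.Reachable.trans hz (SimpleGraph.Reachable.symm hz'))
    · intro s hs t ht hst
      exact hr (SimpleGraph.Reachable.trans hs
        (hst.reachable.trans (SimpleGraph.Reachable.symm ht)))
    · intro s hs t ht ht'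
      constructor
      · intro hst
        exact absurd (SimpleGraph.Reachable.trans hs hst.reachable) ht
      · intro hst
        exact absurd (SimpleGraph.Reachable.trans (h.maps s hs) hst.reachable) ht'

end Pool.Agent.DlaMaxCut.Forest
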