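import Pool.Agent.Lib_MP_debdb1.Glue
import Pool.Agent.Lib_MP_debdb1.Swap
import Pool.Agent.Lib_MP_debdb1.Match

/-!
# MP_debdb1_mp, piece [ForestMain]: in an asymmetric forest every mod 2 equitable partition is discrete

`branch_iso`: induction on `N`. Let `C = {y | G.Adj x y ∧ y ≠ u}`, `C' = {y | G.Adj x' y ∧ y ≠ u'}`.
For `y ≠ z ∈ C` with `r y z`: the darts `(x, y)` and `(x, z)` have
`(Br G x y).ncard + (Br G x z).ncard < (Br G u x).ncard ≤ N` (`Br_ncard_add_lt`), so by induction
(`r x x`, `r y z`) `Iso G (Br G x y) (Br G x z) y z`, and `branch_swap` gives an automorphism moving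
`y` to `z ≠ y`, which contradicts `hasym`. The same for `C'`. So `matching` (with `children_parity`)
gives `β : C → C'` with `r y (β y)`, and for `y ∈ C`
`(Br G x y).ncard + (Br G x' (β y)).ncard < (Br G u x).ncard + (Br G u' x').ncard` (`Br_ncard_lt`), so
by induction `Iso G (Br G x y) (Br G x' (β y)) y (β y)`. Glue (`glue` + `Br_decomp`).

`nbr_distinct`: `branch_iso` for the darts `(u, x)`, `(u, x')` and `branch_swap`.

`forest_discrete`: let `r v w`. By `nbr_distinct` the neighbours of `v` (of `w`) are in distinct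
classes; `matching` with `nbr_parity` gives `β : N(v) → N(w)` with `r y (β y)`; `branch_iso` for the
darts `(v, y)`, `(w, β y)`; `glue` + `comp_decomp` give
`Iso G {z | G.Reachable v z} {z | G.Reachable w z} v w`; `comp_aut` gives `σ` with `σ v = w`, so `v = w`.
-/

namespace Pool.Agent.DlaMaxCut.Forest

universe u

variable {V : Type u}

/-- Siblings in the same class contradict asymmetry, once `branch_iso` holds for smaller sizes. -/
theorem forestMain_sib [Finite V] {G : SimpleGraph V} (hG : G.IsAcyclic)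
    (hasym : ∀ σ : G ≃g G, ∀ v, σ v = v) {r : Setoid V} (N : ℕ)
    (ih : ∀ u x u' x' : V, (Br G u x).ncard + (Br G u' x').ncard ≤ N → G.Adj u x →
      G.Adj u' x' → r u u' → r x x' → Iso G (Br G u x) (Br G u' x') x x')
    {u x : V} (hux : G.Adj u x) (hcard : (Br G u x).ncard ≤ N + 1) :
    ∀ y ∈ {y | G.Adj x y ∧ y ≠ u}, ∀ z ∈ {y | G.Adj x y ∧ y ≠ u}, r y z → y = z := by
  intro y hy z hz hyz
  by_contra hne
  have hlt : (Br G x y).ncard + (Br G x z).ncard < (Br G u x).ncard :=
    Br_ncard_add_lt hG hux hy.1 hy.2 hz.1 hz.2 hne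
  have hiso : Iso G (Br G x y) (Br G x z) y z :=
    ih x y x z (by omega) hy.1 hz.1 (r.refl x) hyz
  obtain ⟨σ, hσ⟩ := branch_swap hG hy.1 hz.1 hne hiso
  exact hne ((hasym σ y).symm.trans hσ)

theorem branch_iso [Finite V] {G : SimpleGraph V} (hG : G.IsAcyclic)
    (hasym : ∀ σ : G ≃g G, ∀ v, σ v = v) {r : Setoid V} (hr : Mod2Equitable G r) (N : ℕ) :
    ∀ u x u' x' : V, (Br G u x).ncard + (Br G u' x').ncard ≤ N → G.Adj u x → G.Adj u' x' →
      r u u' → r x x' → Iso G (Br G u x) (Br G u' x') x x' := by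
  induction N with
  | zero =>
    intro u x u' x' hN hux _ _ _
    exfalso
    have hpos : 0 < (Br G u x).ncard := by
      rw [Set.ncard_pos (Set.toFinite _)]
      exact ⟨x, mem_Br_self G hux.ne⟩
    omega
  | succ N ih =>
    intro u x u' x' hN hux hux' huu hxx
    have hpos : 0 < (Br G u x).ncard := by
      rw [Set.ncard_pos (Set.toFinite _)]
      exact ⟨x, mem_Br_self G hux.ne⟩
    have hpos' : 0 < (Br G u' x').ncard := by
      rw [Set.ncard_pos (Set.toFinite _)]
      exact ⟨x', mem_Br_self G hux'.ne⟩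
    have h1 := forestMain_sib hG hasym N ih hux (by omega)
    have h2 := forestMain_sib hG hasym N ih hux' (by omega)
    obtain ⟨β, hβ, hinj, hsurj⟩ := matching r {y | G.Adj x y ∧ y ≠ u} {y | G.Adj x' y ∧ y ≠ u'}
      h1 h2 (fun l => children_parity hr hux hux' huu hxx l)
    rw [Br_decomp hG hux, Br_decomp hG hux']
    refine glue hG x x' {y | G.Adj x y ∧ y ≠ u} {y | G.Adj x' y ∧ y ≠ u'}
      (fun y hy => hy.1) (fun y hy => hy.1) β (fun y hy => (hβ y hy).1) hinj hsurj ?_
    intro y hy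
    have hb := hβ y hy
    have hlt : (Br G x y).ncard < (Br G u x).ncard := Br_ncard_lt hG hux hy.1 hy.2
    have hlt' : (Br G x' (β y)).ncard < (Br G u' x').ncard :=
      Br_ncard_lt hG hux' hb.1.1 hb.1.2
    exact ih x y x' (β y) (by omega) hy.1 hb.1.1 hxx hb.2

theorem nbr_distinct [Finite V] {G : SimpleGraph V} (hG : G.IsAcyclic)
    (hasym : ∀ σ : G ≃g G, ∀ v, σ v = v) {r : Setoid V} (hr : Mod2Equitable G r)
    {u x x' : V} (hx : G.Adj u x) (hx' : G.Adj u x') (h : r x x') : x = x' := by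
  by_contra hne
  have hiso : Iso G (Br G u x) (Br G u x') x x' :=
    branch_iso hG hasym hr _ u x u x' le_rfl hx hx' (r.refl u) h
  obtain ⟨σ, hσ⟩ := branch_swap hG hx hx' hne hiso
  exact hne ((hasym σ x).symm.trans hσ)

theorem forest_discrete [Finite V] {G : SimpleGraph V} (hG : G.IsAcyclic)
    (hasym : ∀ σ : G ≃g G, ∀ v, σ v = v) {r : Setoid V} (hr : Mod2Equitable G r)
    {v w : V} (h : r v w) : v = w := by
  obtain ⟨β, hβ, hinj, hsurj⟩ := matching r {y | G.Adj v y} {y | G.Adj w y}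
    (fun y hy z hz hyz => nbr_distinct hG hasym hr hy hz hyz)
    (fun y hy z hz hyz => nbr_distinct hG hasym hr hy hz hyz)
    (fun l => nbr_parity hr h l)
  have hiso : Iso G {z | G.Reachable v z} {z | G.Reachable w z} v w := by
    rw [comp_decomp G v, comp_decomp G w]
    refine glue hG v w {y | G.Adj v y} {y | G.Adj w y}
      (fun y hy => hy) (fun y hy => hy) β (fun y hy => (hβ y hy).1) hinj hsurj ?_
    intro y hy
    have hb := hβ y hy
    exact branch_iso hG hasym hr _ v y w (β y) le_rfl hy hb.1 h hb.2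
  obtain ⟨σ, hσ⟩ := comp_aut hiso
  exact (hasym σ v).symm.trans hσ

end Pool.Agent.DlaMaxCut.Forest
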