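import Pool.Agent.Lib_MP_debdb1.IsoDef

/-!
# MP_debdb1_mp, piece [Glue]: gluing isomorphisms of branches at the root

Choose `φ_y, ψ_y` for `y ∈ Y` (`choose` with dependent hypotheses). Define `φ` by `φ x = x'` and
`φ z = φ_y z` for `z ∈ Br G x y`, `y ∈ Y` (the `y` is unique by `Br_disjoint`; take
`if h : ∃ y ∈ Y, z ∈ Br G x y then φ_{h.choose} z else x'`), similarly `ψ` on
`{x'} ∪ ⋃ Br G x' (β y)`: `if h : ∃ y ∈ Y, z ∈ Br G x' (β y) then ψ_{h.choose} z else x`.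
Useful first: two rewriting lemmas `z ∈ Br G x y`, `y ∈ Y` ⟹ `φ z = φ_y z` and
`z ∈ Br G x' (β y)`, `y ∈ Y` ⟹ `ψ z = ψ_y z` (by uniqueness, `β` injective).
`x ∉ Br G x y` (`not_mem_Br`), so `φ x = x'`, `ψ x' = x`.
Adjacency: two vertices in the same branch: from `IsoOn`; in different branches: never adjacent
(`Br_no_edge`); `x` and `z ∈ Br G x y` are adjacent iff `z = y` (`Br_adj_root`), and `φ y = β y` is
adjacent to `x'`.
-/

namespace Pool.Agent.DlaMaxCut.Forest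

universe u

variable {V : Type u}

/-- adjacency is preserved by the glued map -/
theorem Glue_adj {G : SimpleGraph V} (hG : G.IsAcyclic) {x x' : V} {Y : Set V} {a b : V → V}
    (ha : ∀ y ∈ Y, G.Adj x (a y)) (hb : ∀ y ∈ Y, G.Adj x' (b y))
    (hinj : ∀ y ∈ Y, ∀ z ∈ Y, a y = a z → y = z) {Φ : V → V} {φ : V → V → V} (hx : Φ x = x')
    (h1 : ∀ y ∈ Y, ∀ z ∈ Br G x (a y), Φ z = φ y z) (hr : ∀ y ∈ Y, φ y (a y) = b y)
    (hadj : ∀ y ∈ Y, ∀ z ∈ Br G x (a y), ∀ w ∈ Br G x (a y), G.Adj z w →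
      G.Adj (φ y z) (φ y w)) (z w : V) (hz : z = x ∨ ∃ y ∈ Y, z ∈ Br G x (a y))
    (hw : w = x ∨ ∃ y ∈ Y, w ∈ Br G x (a y)) (h : G.Adj z w) : G.Adj (Φ z) (Φ w) := by
  have key : ∀ y ∈ Y, ∀ w ∈ Br G x (a y), G.Adj x w → G.Adj x' (Φ w) := by
    intro y hy w hw hxw
    have e : w = a y := Br_adj_root hG (ha y hy) hw hxw.symm
    rw [h1 y hy w hw, e, hr y hy]
    exact hb y hy
  rcases hz with rfl | ⟨y, hy, hz⟩
  · rcases hw with rfl | ⟨y, hy, hw⟩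
    · exact absurd h (G.irrefl)
    · rw [hx]
      exact key y hy w hw h
  · rcases hw with rfl | ⟨y', hy', hw⟩
    · rw [hx]
      exact (key y hy z hz h.symm).symm
    · by_cases e : a y = a y'
      · have e' := hinj y hy y' hy' e
        subst e'
        rw [h1 y hy z hz, h1 y hy w hw]
        exact hadj y hy z hz w hw h
      · exact absurd h (Br_no_edge hG (ha y hy) (ha y' hy') e hz hw)

/-- the glued map -/
theorem Glue_map {G : SimpleGraph V} (hG : G.IsAcyclic) {x x' : V} {Y : Set V} {a : V → V}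
    (ha : ∀ y ∈ Y, G.Adj x (a y)) (hinj : ∀ y ∈ Y, ∀ z ∈ Y, a y = a z → y = z)
    (φ : V → V → V) :
    ∃ Φ : V → V, Φ x = x' ∧ ∀ y ∈ Y, ∀ z ∈ Br G x (a y), Φ z = φ y z := by
  classical
  refine ⟨fun z => if h : ∃ y ∈ Y, z ∈ Br G x (a y) then φ h.choose z else x', ?_, ?_⟩
  · refine dif_neg ?_
    rintro ⟨y, _, h⟩
    exact not_mem_Br G x (a y) h
  · intro y hy z hz
    have h : ∃ y ∈ Y, z ∈ Br G x (a y) := ⟨y, hy, hz⟩
    have h2 : h.choose = y := by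
      refine hinj _ h.choose_spec.1 y hy ?_
      by_contra hne
      exact Set.disjoint_left.1 (Br_disjoint hG (ha _ h.choose_spec.1) (ha y hy) hne)
        h.choose_spec.2 hz
    have h3 : (if h : ∃ y ∈ Y, z ∈ Br G x (a y) then φ h.choose z else x') = φ h.choose z :=
      dif_pos h
    exact h3.trans (by rw [h2])

theorem glue {G : SimpleGraph V} (hG : G.IsAcyclic) (x x' : V) (Y Y' : Set V)
    (hY : ∀ y ∈ Y, G.Adj x y) (hY' : ∀ y ∈ Y', G.Adj x' y) (β : V → V)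
    (hβ : ∀ y ∈ Y, β y ∈ Y') (hinj : ∀ y ∈ Y, ∀ z ∈ Y, β y = β z → y = z)
    (hsurj : ∀ y' ∈ Y', ∃ y ∈ Y, β y = y')
    (hiso : ∀ y ∈ Y, Iso G (Br G x y) (Br G x' (β y)) y (β y)) :
    Iso G (insert x (⋃ y ∈ Y, Br G x y)) (insert x' (⋃ y ∈ Y', Br G x' y)) x x' := by
  have hiso' : ∀ y, ∃ φ ψ : V → V, y ∈ Y → IsoOn G (Br G x y) (Br G x' (β y)) y (β y) φ ψ := by
    intro y
    by_cases hy : y ∈ Y
    · obtain ⟨φ, ψ, h⟩ := hiso y hy
      exact ⟨φ, ψ, fun _ => h⟩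
    · exact ⟨id, id, fun h => absurd h hy⟩
  choose φ ψ hφψ using hiso'
  have hβ' : ∀ y ∈ Y, G.Adj x' (β y) := fun y hy => hY' _ (hβ y hy)
  obtain ⟨Φ, hΦx, hΦ⟩ := Glue_map (x' := x') (a := fun y => y) hG hY (fun _ _ _ _ e => e) φ
  obtain ⟨Ψ, hΨx, hΨ⟩ := Glue_map (x' := x) (a := β) hG hβ' hinj ψ
  have mem1 : ∀ z, z ∈ insert x (⋃ y ∈ Y, Br G x y) ↔ z = x ∨ ∃ y ∈ Y, z ∈ Br G x y := by
    intro z
    simp only [Set.mem_insert_iff, Set.mem_iUnion, exists_prop]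
  have mem2 : ∀ z, z ∈ insert x' (⋃ y ∈ Y', Br G x' y) ↔
      z = x' ∨ ∃ y ∈ Y, z ∈ Br G x' (β y) := by
    intro z
    simp only [Set.mem_insert_iff, Set.mem_iUnion, exists_prop]
    constructor
    · rintro (h | ⟨y', hy', h⟩)
      · exact Or.inl h
      · obtain ⟨y, hy, e⟩ := hsurj y' hy'
        exact Or.inr ⟨y, hy, by rw [e]; exact h⟩
    · rintro (h | ⟨y, hy, h⟩)
      · exact Or.inl h
      · exact Or.inr ⟨β y, hβ y hy, h⟩
  have hroot : ∀ y ∈ Y, ψ y (β y) = y := by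
    intro y hy
    have h1 := (hφψ y hy).inv y (mem_Br_self G (hY y hy).ne)
    rwa [(hφψ y hy).root] at h1
  refine ⟨Φ, Ψ, hΦx, ?_, ?_, ?_, ?_, ?_, ?_⟩
  · intro z hz
    rw [mem1] at hz
    rw [mem2]
    rcases hz with rfl | ⟨y, hy, hz⟩
    · exact Or.inl hΦx
    · rw [hΦ y hy z hz]
      exact Or.inr ⟨y, hy, (hφψ y hy).maps z hz⟩
  · intro z hz
    rw [mem1] at hz
    rcases hz with rfl | ⟨y, hy, hz⟩
    · rw [hΦx, hΨx]
    · rw [hΦ y hy z hz, hΨ y hy _ ((hφψ y hy).maps z hz), (hφψ y hy).inv z hz]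
  · intro z hz
    rw [mem2] at hz
    rw [mem1]
    rcases hz with rfl | ⟨y, hy, hz⟩
    · exact Or.inl hΨx
    · rw [hΨ y hy z hz]
      exact Or.inr ⟨y, hy, (hφψ y hy).maps' z hz⟩
  · intro z hz
    rw [mem2] at hz
    rcases hz with rfl | ⟨y, hy, hz⟩
    · rw [hΨx, hΦx]
    · rw [hΨ y hy z hz, hΦ y hy _ ((hφψ y hy).maps' z hz), (hφψ y hy).inv' z hz]
  · intro z hz w hw h
    exact Glue_adj (a := fun y => y) (b := β) hG hY hβ' (fun _ _ _ _ e => e) hΦx hΦ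
      (fun y hy => (hφψ y hy).root) (fun y hy => (hφψ y hy).adj) z w ((mem1 z).1 hz)
      ((mem1 w).1 hw) h
  · intro z hz w hw h
    exact Glue_adj (a := β) (b := fun y => y) hG hβ' hY hinj hΨx hΨ hroot
      (fun y hy => (hφψ y hy).adj') z w ((mem2 z).1 hz) ((mem2 w).1 hw) h

end Pool.Agent.DlaMaxCut.Forest
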