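import Pool.Agent.Lib_MP_debdb1.CardGraph

/-!
# MP_debdb1_mp, piece [Inject]: few graphs have a given mod 2 equitable partition

Let `s : Fin k → Fin n` be a section of `f` (`f (s a) = a`), `U = {x // x ∉ Set.range s}` (it has
`n - k` elements). Map a graph `G` of the left side to the pair
(`G.comap (Subtype.val : U → Fin n)`, the table `T a b = Odd {w | G.Adj (s a) w ∧ f w = b}.ncard`).
This map is injective into `SimpleGraph U × (Fin k → Fin k → Prop)`, a set with
`2 ^ ((n-k).choose 2) * 2 ^ (k^2)` elements (`card_simpleGraph`).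

Injectivity. Let `G1, G2` have the same image. Since `Mod2Equitable G (Setoid.ker f)`, for every
`j` and `b` (take `l = s b`; `f` is surjective) `Odd {w | G.Adj j w ∧ f w = b}.ncard ↔ T (f j) b`, the
same for `G1` and `G2`.
(1) `j, w ∈ U`: `G1.Adj j w ↔ G2.Adj j w`, clear.
(2) `j ∈ U`, `b : Fin k`: `{w | G.Adj j w ∧ f w = b}` is the disjoint union of its part in `U` (the
same for `G1` and `G2` by (1)) and of `{s b}` if `G.Adj j (s b)` (the elements of `range s` with
`f w = b` are just `s b`). The parities agree, so `G1.Adj j (s b) ↔ G2.Adj j (s b)`.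
(3) `j = s a`, `b`: the part of `{w | G.Adj (s a) w ∧ f w = b}` in `U` is the same for `G1`, `G2` by (2)
and symmetry; so as before `G1.Adj (s a) (s b) ↔ G2.Adj (s a) (s b)`.
-/

namespace Pool.Agent.DlaMaxCut.Count

theorem inject_par {n k : ℕ} (f : Fin n → Fin k) (s : Fin k → Fin n) (hs : ∀ a, f (s a) = a)
    (G : SimpleGraph (Fin n)) (hG : Mod2Equitable G (Setoid.ker f)) (j : Fin n) (b : Fin k) :
    Odd {w : Fin n | G.Adj j w ∧ f w = b}.ncard ↔
      Odd {w : Fin n | G.Adj (s (f j)) w ∧ f w = b}.ncard := by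
  have h := hG j (s (f j)) (s b) (by rw [Setoid.ker_def, hs])
  have he : ∀ i : Fin n, {w : Fin n | G.Adj i w ∧ (Setoid.ker f) (s b) w} =
      {w : Fin n | G.Adj i w ∧ f w = b} := by
    intro i
    ext w
    simp only [Set.mem_ofPred_eq, Setoid.ker_def, hs]
    exact ⟨fun h => ⟨h.1, h.2.symm⟩, fun h => ⟨h.1, h.2.symm⟩⟩
  rw [he, he] at h
  exact h

theorem inject_step {n k : ℕ} (f : Fin n → Fin k) (s : Fin k → Fin n) (hs : ∀ a, f (s a) = a)
    (G₁ G₂ : SimpleGraph (Fin n)) (j : Fin n) (b : Fin k)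
    (hpar : Odd {w : Fin n | G₁.Adj j w ∧ f w = b}.ncard ↔
      Odd {w : Fin n | G₂.Adj j w ∧ f w = b}.ncard)
    (hU : ∀ w, w ∉ Set.range s → (G₁.Adj j w ↔ G₂.Adj j w)) :
    G₁.Adj j (s b) ↔ G₂.Adj j (s b) := by
  have he : {w : Fin n | G₁.Adj j w ∧ f w = b} \ {s b} =
      {w : Fin n | G₂.Adj j w ∧ f w = b} \ {s b} := by
    ext w
    simp only [Set.mem_sdiff, Set.mem_ofPred_eq, Set.mem_singleton_iff]
    have h1 : f w = b → w ≠ s b → (G₁.Adj j w ↔ G₂.Adj j w) := by
      intro h2 h3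
      refine hU w ?_
      rintro ⟨a, rfl⟩
      rw [hs] at h2
      exact h3 (by rw [h2])
    constructor
    · rintro ⟨⟨h2, h3⟩, h4⟩
      exact ⟨⟨(h1 h3 h4).1 h2, h3⟩, h4⟩
    · rintro ⟨⟨h2, h3⟩, h4⟩
      exact ⟨⟨(h1 h3 h4).2 h2, h3⟩, h4⟩
  have hc : ∀ G : SimpleGraph (Fin n), G.Adj j (s b) →
      ({w : Fin n | G.Adj j w ∧ f w = b} \ {s b}).ncard + 1 =
        {w : Fin n | G.Adj j w ∧ f w = b}.ncard := fun G h =>
    Set.ncard_sdiff_singleton_add_one (show s b ∈ {w : Fin n | G.Adj j w ∧ f w = b} from ⟨h, hs b⟩)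
  have hn : ∀ G : SimpleGraph (Fin n), ¬ G.Adj j (s b) →
      ({w : Fin n | G.Adj j w ∧ f w = b} \ {s b}).ncard =
        {w : Fin n | G.Adj j w ∧ f w = b}.ncard := fun G h => by
    rw [Set.sdiff_singleton_eq_self (fun h' : s b ∈ {w : Fin n | G.Adj j w ∧ f w = b} => h h'.1)]
  by_cases h1 : G₁.Adj j (s b) <;> by_cases h2 : G₂.Adj j (s b)
  · exact ⟨fun _ => h2, fun _ => h1⟩
  · exfalso
    rw [← hc G₁ h1, ← hn G₂ h2, he, Nat.odd_add_one] at hpar
    tauto
  · exfalso
    rw [← hn G₁ h1, ← hc G₂ h2, he, Nat.odd_add_one] at hpar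
    tauto
  · exact ⟨fun h => absurd h h1, fun h => absurd h h2⟩

theorem card_equitable (n k : ℕ) (f : Fin n → Fin k) (hf : Function.Surjective f) :
    Nat.card {G : SimpleGraph (Fin n) // Mod2Equitable G (Setoid.ker f)} ≤
      2 ^ ((n - k).choose 2 + k ^ 2) := by
  classical
  obtain ⟨s, hs⟩ : ∃ s : Fin k → Fin n, ∀ a, f (s a) = a :=
    ⟨Function.surjInv hf, Function.surjInv_eq hf⟩
  have hsi : Function.Injective s := fun a b h => by rw [← hs a, ← hs b, h]
  set Φ : {G : SimpleGraph (Fin n) // Mod2Equitable G (Setoid.ker f)} →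
      SimpleGraph {x : Fin n // x ∉ Set.range s} × (Fin k → Fin k → Prop) := fun G =>
    (G.1.comap (Subtype.val : {x : Fin n // x ∉ Set.range s} → Fin n),
      fun a b => Odd {w : Fin n | G.1.Adj (s a) w ∧ f w = b}.ncard) with hΦ
  have hinj : Function.Injective Φ := by
    rintro ⟨G₁, h₁⟩ ⟨G₂, h₂⟩ h
    simp only [hΦ, Prod.mk.injEq] at h
    obtain ⟨hA, hT⟩ := h
    have hT' : ∀ a b, (Odd {w : Fin n | G₁.Adj (s a) w ∧ f w = b}.ncard ↔
        Odd {w : Fin n | G₂.Adj (s a) w ∧ f w = b}.ncard) := fun a b =>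
      iff_of_eq (congrFun (congrFun hT a) b)
    have hpar : ∀ j b, (Odd {w : Fin n | G₁.Adj j w ∧ f w = b}.ncard ↔
        Odd {w : Fin n | G₂.Adj j w ∧ f w = b}.ncard) := fun j b =>
      ((inject_par f s hs G₁ h₁ j b).trans (hT' (f j) b)).trans (inject_par f s hs G₂ h₂ j b).symm
    have hUU : ∀ j w, j ∉ Set.range s → w ∉ Set.range s → (G₁.Adj j w ↔ G₂.Adj j w) := by
      intro j w hj hw
      have h3 : (G₁.comap (Subtype.val : {x : Fin n // x ∉ Set.range s} → Fin n)).Adj ⟨j, hj⟩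
          ⟨w, hw⟩ ↔ (G₂.comap (Subtype.val : {x : Fin n // x ∉ Set.range s} → Fin n)).Adj ⟨j, hj⟩
          ⟨w, hw⟩ := by rw [hA]
      exact h3
    have hUs : ∀ j b, j ∉ Set.range s → (G₁.Adj j (s b) ↔ G₂.Adj j (s b)) := fun j b hj =>
      inject_step f s hs G₁ G₂ j b (hpar j b) (fun w hw => hUU j w hj hw)
    have hsU : ∀ a w, w ∉ Set.range s → (G₁.Adj (s a) w ↔ G₂.Adj (s a) w) := by
      intro a w hw
      rw [G₁.adj_comm, G₂.adj_comm]
      exact hUs w a hw
    have hss : ∀ a b, (G₁.Adj (s a) (s b) ↔ G₂.Adj (s a) (s b)) := fun a b =>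
      inject_step f s hs G₁ G₂ (s a) b (hpar (s a) b) (fun w hw => hsU a w hw)
    apply Subtype.ext
    ext j w
    by_cases hj : j ∈ Set.range s <;> by_cases hw : w ∈ Set.range s
    · obtain ⟨a, rfl⟩ := hj
      obtain ⟨b, rfl⟩ := hw
      exact hss a b
    · obtain ⟨a, rfl⟩ := hj
      exact hsU a w hw
    · obtain ⟨b, rfl⟩ := hw
      exact hUs j b hj
    · exact hUU j w hj hw
  have hU : Fintype.card {x : Fin n // x ∉ Set.range s} = n - k := by
    rw [Fintype.card_subtype_compl, Fintype.card_fin]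
    have h4 : Fintype.card {x : Fin n // x ∈ Set.range s} = k := by
      have h5 := Set.card_range_of_injective hsi
      rw [Fintype.card_fin] at h5
      exact (Fintype.card_congr (Equiv.refl _)).trans h5
    rw [h4]
  have hle := Nat.card_le_card_of_injective Φ hinj
  rw [Nat.card_prod, card_simpleGraph, hU] at hle
  have hP : Nat.card (Fin k → Fin k → Prop) = 2 ^ (k ^ 2) := by
    rw [Nat.card_eq_fintype_card, Fintype.card_fun, Fintype.card_fun, Fintype.card_prop,
      Fintype.card_fin, ← pow_mul, sq]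
  rw [hP, ← pow_add] at hle
  exact hle

end Pool.Agent.DlaMaxCut.Count
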