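import Pool.Agent.Lib_MP_debdb1.Branch

/-! # MP_debdb1_mp: isomorphisms between vertex sets -/

namespace Pool.Agent.DlaMaxCut.Forest

universe u

variable {V : Type u}

/-- `φ : S → S'` and `ψ : S' → S` are inverse bijections which preserve adjacency, and `φ x = x'`. -/
structure IsoOn (G : SimpleGraph V) (S S' : Set V) (x x' : V) (φ ψ : V → V) : Prop where
  root : φ x = x'
  maps : ∀ z ∈ S, φ z ∈ S'
  inv : ∀ z ∈ S, ψ (φ z) = z
  maps' : ∀ z ∈ S', ψ z ∈ S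
  inv' : ∀ z ∈ S', φ (ψ z) = z
  adj : ∀ y ∈ S, ∀ z ∈ S, G.Adj y z → G.Adj (φ y) (φ z)
  adj' : ∀ y ∈ S', ∀ z ∈ S', G.Adj y z → G.Adj (ψ y) (ψ z)

/-- There is an isomorphism from `S` to `S'` which maps `x` to `x'`. -/
def Iso (G : SimpleGraph V) (S S' : Set V) (x x' : V) : Prop :=
  ∃ φ ψ : V → V, IsoOn G S S' x x' φ ψ

end Pool.Agent.DlaMaxCut.Forest
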