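import Pool.Agent.Lib_MP_debdb1.Cut
import Pool.Agent.Lib_MP_debdb1.DiagPoly

/-!
# MP_debdb1_mp, piece [OddPart]: the parity of the degree

Proof of `odd_mem`. Take `p` from `exists_parity_poly (Fintype.card V)` and apply `diag_poly_mem`
with `c = cutVal H` (`costH_eq_diagonal`), `M = I • mixW u`. The entry of `M` at `(x, y)` is
`∑_j I * u j * [y = flipAt j x]`. For `y = flipAt j x`, by `cutVal_sub_flip`,
`(cutVal H x - cutVal H y)/2 = ± nbrSum H j x`, so `p.eval (..)^2 = [Odd (nbrSum H j x)] =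
[Odd (degree of j)]` by `abs_nbrSum_le`, `odd_nbrSum_iff`. Hence the new matrix is
`I • mixW (oddDeg H * u)`.
-/

namespace Pool.Agent.DlaMaxCut

open Matrix

universe u

variable {V : Type u} [Fintype V] [DecidableEq V]

private theorem oddPart_key (H : SimpleGraph V) (p : Polynomial ℝ)
    (hp : ∀ t : ℤ, |t| ≤ Fintype.card V → p.eval ((t : ℝ) ^ 2) = if Odd t then 1 else 0)
    (x y : V → Bool) (j : V) :
    ((p.eval (((cutVal H x - cutVal H y) / 2) ^ 2) : ℝ) : ℂ) * (if y = flipAt j x then 1 else 0) =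
      ((oddDeg H j : ℝ) : ℂ) * (if y = flipAt j x then 1 else 0) := by
  by_cases hy : y = flipAt j x
  · subst hy
    have h1 := cutVal_sub_flip H j x
    have h2 : ((spin j x : ℤ) : ℝ) ^ 2 = 1 := by
      unfold spin
      split_ifs <;> norm_num
    have h3 : ((cutVal H x - cutVal H (flipAt j x)) / 2) ^ 2 = ((nbrSum H j x : ℤ) : ℝ) ^ 2 := by
      rw [h1]
      have h4 : (2 * ((spin j x : ℤ) : ℝ) * ((nbrSum H j x : ℤ) : ℝ) / 2) ^ 2 =
          ((spin j x : ℤ) : ℝ) ^ 2 * ((nbrSum H j x : ℤ) : ℝ) ^ 2 := by ring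
      rw [h4, h2, one_mul]
    have h5 : p.eval (((cutVal H x - cutVal H (flipAt j x)) / 2) ^ 2) = oddDeg H j := by
      rw [h3, hp _ (abs_nbrSum_le H j x)]
      unfold oddDeg
      by_cases ho : Odd (nbrSum H j x)
      · rw [if_pos ho, if_pos ((odd_nbrSum_iff H j x).mp ho)]
      · rw [if_neg ho, if_neg (fun h => ho ((odd_nbrSum_iff H j x).mpr h))]
    rw [h5]
  · rw [if_neg hy, mul_zero, mul_zero]

theorem odd_mem (H : SimpleGraph V) (g : Submodule ℝ (Matrix (V → Bool) (V → Bool) ℂ))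
    (hg : ∀ M ∈ g, ∀ N ∈ g, M * N - N * M ∈ g) (hH : Complex.I • costH H ∈ g)
    (u : V → ℝ) (hu : Complex.I • mixW u ∈ g) :
    Complex.I • mixW (fun j => oddDeg H j * u j) ∈ g := by
  obtain ⟨p, hp⟩ := exists_parity_poly (Fintype.card V)
  have hc : Complex.I • Matrix.diagonal (fun x => ((cutVal H x : ℝ) : ℂ)) ∈ g := by
    rw [← costH_eq_diagonal]
    exact hH
  have h := diag_poly_mem g hg (cutVal H) hc p (Complex.I • mixW u) hu
  have heq : (Matrix.of fun x y => ((p.eval (((cutVal H x - cutVal H y) / 2) ^ 2) : ℝ) : ℂ) *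
      (Complex.I • mixW u) x y) = Complex.I • mixW (fun j => oddDeg H j * u j) := by
    ext x y
    simp only [Matrix.of_apply, Matrix.smul_apply, mixW, Matrix.sum_apply, pauliX, smul_eq_mul,
      Finset.mul_sum, Complex.real_smul]
    refine Finset.sum_congr rfl fun j _ => ?_
    have hk := oddPart_key H p hp x y j
    calc ((p.eval (((cutVal H x - cutVal H y) / 2) ^ 2) : ℝ) : ℂ) *
          (Complex.I * ((u j : ℂ) * (if y = flipAt j x then 1 else 0)))
        = Complex.I * (u j : ℂ) * (((p.eval (((cutVal H x - cutVal H y) / 2) ^ 2) : ℝ) : ℂ) *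
          (if y = flipAt j x then 1 else 0)) := by ring
      _ = Complex.I * (u j : ℂ) * (((oddDeg H j : ℝ) : ℂ) * (if y = flipAt j x then 1 else 0)) := by
          rw [hk]
      _ = Complex.I * (((oddDeg H j * u j : ℝ) : ℂ) * (if y = flipAt j x then 1 else 0)) := by
          push_cast
          ring
  rw [← heq]
  exact h

end Pool.Agent.DlaMaxCut
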