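import Pool.Agent.Lib_MP_debdb1.Defs

/-!
# MP_debdb1_mp, piece [Pauli]: Pauli relations, the cost operator as a double sum

`costH_eq_sum`: the sum over ordered pairs `(j, k)` with `G.Adj j k` is the sum over the darts; each
edge `s(j, k)` comes from the two darts `(j, k)`, `(k, j)` and the summand is symmetric
(`pauliZ_mul_comm`). Possible route: `SimpleGraph.Dart`, `Finset.sum_fiberwise`, or
`∑ over (p : V × V) with G.Adj p.1 p.2` mapped by `Sym2.mk`, each fibre over `s(j,k) ∈ G.edgeFinset`
being `{(j,k), (k,j)}` with `j ≠ k`.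
-/

namespace Pool.Agent.DlaMaxCut

open Matrix

universe u

variable {V : Type u} [Fintype V] [DecidableEq V]

theorem flipAt_flipAt (j : V) (x : V → Bool) : flipAt j (flipAt j x) = x := by
  sorry

theorem flipAt_comm (j k : V) (x : V → Bool) :
    flipAt j (flipAt k x) = flipAt k (flipAt j x) := by
  sorry

theorem flipAt_same (j : V) (x : V → Bool) : flipAt j x j = !(x j) := by
  sorry

theorem flipAt_ne {j k : V} (h : k ≠ j) (x : V → Bool) : flipAt j x k = x k := by
  sorry

theorem pauliX_mul_self (j : V) : pauliX j * pauliX j = 1 := by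
  sorry

theorem pauliX_comm (j k : V) : pauliX j * pauliX k = pauliX k * pauliX j := by
  sorry

theorem pauliX_pauliZ_same (j : V) : pauliX j * pauliZ j = -(pauliZ j * pauliX j) := by
  sorry

theorem pauliX_pauliZ_ne {j k : V} (h : j ≠ k) : pauliX j * pauliZ k = pauliZ k * pauliX j := by
  sorry

open Classical in
/-- Sum over `Sym2` edges = half of the sum over ordered pairs. -/
theorem costH_eq_sum (G : SimpleGraph V) :
    costH G = (1 / 2 : ℝ) • ∑ j : V, ∑ k : V, if G.Adj j k then pauliZ j * pauliZ k else 0 := by
  sorry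

end Pool.Agent.DlaMaxCut
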